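import Mathlib

namespace Pool.Agent.Results.MP_8a2df8_gt.ProductCompact

open Topology Filter Set

universe u v

/-- The space `C_p(X)`: continuous real functions on `X` with the topology of pointwise
convergence, i.e. the subspace topology inherited from the product `X → ℝ`. -/
abbrev Cp (X : Type u) [TopologicalSpace X] : Type u := {f : X → ℝ // Continuous f}

/-- `A` is countably compact in `Z`: each infinite subset of `A` has an accumulation point
in `Z`. -/
def CountablyCompactIn {Z : Type u} [TopologicalSpace Z] (A : Set Z) : Prop :=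
  ∀ B : Set Z, B ⊆ A → B.Infinite → ∃ z : Z, AccPt z (𝓟 B)

/-- `Z` is a g-space: every subset that is countably compact in `Z` has compact closure. -/
def GSpace (Z : Type u) [TopologicalSpace Z] : Prop :=
  ∀ A : Set Z, CountablyCompactIn A → IsCompact (closure A)

/-- `Z` is a hereditarily g-space: every subspace of `Z` is a g-space. -/
def HereditarilyGSpace (Z : Type u) [TopologicalSpace Z] : Prop :=
  ∀ Y : Set Z, GSpace Y

/-- `X` is a Grothendieck space: `C_p(X)` is a hereditarily g-space. -/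
def GrothendieckSpace (X : Type u) [TopologicalSpace X] : Prop :=
  HereditarilyGSpace (Cp X)

/-! ### Working notions in the full product -/

/-- A set of continuous functions on `Z` such that each sequence of its members has a continuous
cluster point for pointwise convergence. -/
def RCC {Z : Type u} [TopologicalSpace Z] (A : Set (Z → ℝ)) : Prop :=
  (∀ f ∈ A, Continuous f) ∧
    ∀ s : ℕ → (Z → ℝ), (∀ n, s n ∈ A) → ∃ a : Z → ℝ, Continuous a ∧ MapClusterPt a atTop s

/-- The angelic property of `C_p(Z)`. -/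
def Ang (Z : Type u) [TopologicalSpace Z] : Prop :=
  ∀ A : Set (Z → ℝ), RCC A → ∀ f ∈ closure A, ∃ s : ℕ → (Z → ℝ), (∀ n, s n ∈ A) ∧
    Tendsto s atTop (𝓝 f)

lemma eq_of_mapClusterPt_of_tendsto {Z : Type*} [TopologicalSpace Z] [T2Space Z] {ι : Type*}
    {l : Filter ι} {s : ι → Z} {a f : Z} (ha : MapClusterPt a l s) (hs : Tendsto s l (𝓝 f)) :
    a = f :=
  have : (𝓝 a ⊓ 𝓝 f).NeBot := ClusterPt.mono ha hs
  eq_of_nhds_neBot this

lemma exists_mapClusterPt_of_countablyCompactIn {Z : Type u} [TopologicalSpace Z] [T1Space Z]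
    {A : Set Z} (hA : CountablyCompactIn A) (s : ℕ → Z) (hs : ∀ n, s n ∈ A) :
    ∃ z, MapClusterPt z atTop s := by
  by_cases hr : (range s).Infinite
  · obtain ⟨z, hz⟩ := hA (range s) (by rintro _ ⟨n, rfl⟩; exact hs n) hr
    refine ⟨z, ?_⟩
    rw [mapClusterPt_iff_frequently]
    intro U hU
    by_contra hcon
    rw [not_frequently, eventually_atTop] at hcon
    obtain ⟨N, hN⟩ := hcon
    have hfin : ((s '' (Set.Iio N)) \ {z}).Finite := ((Set.finite_Iio N).image s).subset Set.sdiff_subset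
    have hV : U ∩ ((s '' (Set.Iio N)) \ {z})ᶜ ∈ 𝓝 z := by
      refine inter_mem hU ?_
      refine hfin.isClosed.isOpen_compl.mem_nhds ?_
      simp
    rw [accPt_iff_nhds] at hz
    obtain ⟨y, ⟨⟨hyU, hy2⟩, ⟨n, rfl⟩⟩, hyz⟩ := hz _ hV
    by_cases hn : N ≤ n
    · exact hN n hn hyU
    · exact hy2 ⟨⟨n, by simpa using hn, rfl⟩, by simpa using hyz⟩
  · rw [Set.not_infinite] at hr
    have : Finite (range s) := hr
    obtain ⟨y, hy⟩ := Finite.exists_infinite_fiber (rangeFactorization s)
    refine ⟨y, ?_⟩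
    rw [mapClusterPt_iff_frequently]
    intro U hU
    have h1 : (rangeFactorization s ⁻¹' {y}).Infinite := Set.infinite_coe_iff.mp hy
    rw [Nat.frequently_atTop_iff_infinite]
    refine h1.mono ?_
    intro n hn
    have : s n = y := by
      have := congrArg Subtype.val (show rangeFactorization s n = y from hn)
      simpa using this
    show s n ∈ U
    rw [this]
    exact mem_of_mem_nhds hU

lemma countablyCompactIn_of_mapClusterPt {Z : Type u} [TopologicalSpace Z]
    {A : Set Z} (hA : ∀ s : ℕ → Z, (∀ n, s n ∈ A) → ∃ z, MapClusterPt z atTop s) :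
    CountablyCompactIn A := by
  intro B hBA hB
  obtain ⟨z, hz⟩ := hA (fun n => (hB.natEmbedding B n : Z)) (fun n => hBA (hB.natEmbedding B n).2)
  refine ⟨z, ?_⟩
  rw [accPt_iff_nhds]
  intro U hU
  rw [mapClusterPt_iff_frequently] at hz
  have h1 := hz U hU
  rw [Nat.frequently_atTop_iff_infinite] at h1
  by_contra hcon
  push Not at hcon
  have h2 : {n | ((hB.natEmbedding B n : B) : Z) ∈ U}.Subsingleton := by
    intro n hn m hm
    have e1 := hcon _ ⟨hn, (hB.natEmbedding B n).2⟩
    have e2 := hcon _ ⟨hm, (hB.natEmbedding B m).2⟩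
    exact (hB.natEmbedding B).injective (Subtype.ext (e1.trans e2.symm))
  exact h1 h2.finite

/-- Extract a cluster point different from the limit candidate. -/
lemma ang_of_grothendieckSpace {Z : Type u} [TopologicalSpace Z] (hZ : GrothendieckSpace Z) :
    Ang Z := by
  intro A hA f hf
  by_contra hcon
  push Not at hcon
  -- the punctured subspace
  let Y : Set (Cp Z) := {g | g.1 ≠ f}
  let A' : Set Y := {g | g.1.1 ∈ A}
  have key : ∀ s : ℕ → (Z → ℝ), (∀ n, s n ∈ A) → ∃ a : Z → ℝ, Continuous a ∧ a ≠ f ∧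
      MapClusterPt a atTop s := by
    intro s hs
    have h1 := hcon s hs
    rw [tendsto_nhds] at h1
    push Not at h1
    obtain ⟨U, hUo, hfU, hU⟩ := h1
    have h2 : ∃ᶠ n in atTop, s n ∉ U := by
      intro h
      apply hU
      filter_upwards [h] with n hn
      simpa using hn
    obtain ⟨φ, hφ, hφU⟩ := extraction_of_frequently_atTop h2
    obtain ⟨a, hac, ha⟩ := hA.2 (s ∘ φ) (fun n => hs _)
    have haU : a ∈ Uᶜ := by
      refine hUo.isClosed_compl.mem_of_mapClusterPt ha (Eventually.of_forall ?_)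
      intro n
      exact hφU n
    refine ⟨a, hac, ?_, ?_⟩
    · rintro rfl
      exact haU hfU
    · rw [mapClusterPt_iff_frequently] at ha ⊢
      intro V hV
      have h3 := ha V hV
      intro h4
      apply h3
      have := hφ.tendsto_atTop.eventually h4
      simpa using this
  have hcc : CountablyCompactIn A' := by
    apply countablyCompactIn_of_mapClusterPt
    intro s hs
    obtain ⟨a, hac, haf, ha⟩ := key (fun n => (s n).1.1) (fun n => hs n)
    refine ⟨⟨⟨a, hac⟩, haf⟩, ?_⟩
    have hemb : IsInducing (fun g : Y => (g.1.1 : Z → ℝ)) :=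
      (IsInducing.subtypeVal).comp IsInducing.subtypeVal
    rw [mapClusterPt_iff_frequently] at ha ⊢
    intro U hU
    rw [hemb.nhds_eq_comap, mem_comap] at hU
    obtain ⟨V, hV, hVU⟩ := hU
    exact (ha V hV).mono (fun n hn => hVU hn)
  have hcomp := hZ Y A' hcc
  have hcont : Continuous (fun g : Y => (g.1.1 : Z → ℝ)) :=
    continuous_subtype_val.comp continuous_subtype_val
  have himg : IsCompact ((fun g : Y => (g.1.1 : Z → ℝ)) '' closure A') := hcomp.image hcont
  have hsub : A ⊆ (fun g : Y => (g.1.1 : Z → ℝ)) '' closure A' := by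
    intro g hg
    have hgf : g ≠ f := by
      rintro rfl
      exact hcon (fun _ => g) (fun _ => hg) tendsto_const_nhds
    exact ⟨⟨⟨g, hA.1 g hg⟩, hgf⟩, subset_closure hg, rfl⟩
  obtain ⟨g, _, hgf⟩ := closure_minimal hsub himg.isClosed hf
  exact g.2 hgf

lemma grothendieckSpace_of_ang {Z : Type u} [TopologicalSpace Z] (hZ : Ang Z) :
    GrothendieckSpace Z := by
  intro Y A hA
  let ι : Y → (Z → ℝ) := fun g => g.1.1
  have hind : IsInducing ι := (IsInducing.subtypeVal).comp IsInducing.subtypeVal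
  have hcontι : Continuous ι := hind.continuous
  have hseq := exists_mapClusterPt_of_countablyCompactIn hA
  -- lifting sequences
  have hlift : ∀ s : ℕ → (Z → ℝ), (∀ n, s n ∈ ι '' A) → ∃ a : Y, MapClusterPt (ι a) atTop s := by
    intro s hs
    choose g hgA hgs using hs
    obtain ⟨a, ha⟩ := hseq g hgA
    refine ⟨a, ?_⟩
    have := ha.tendsto_comp hcontι.continuousAt
    have h2 : ι ∘ g = s := funext hgs
    rwa [h2] at this
  have hRCC : RCC (ι '' A) := by
    refine ⟨?_, ?_⟩
    · rintro _ ⟨g, _, rfl⟩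
      exact g.1.2
    · intro s hs
      obtain ⟨a, ha⟩ := hlift s hs
      exact ⟨ι a, a.1.2, ha⟩
  have hbdd : ∀ z : Z, ∃ M : ℝ, ∀ h ∈ ι '' A, |h z| ≤ M := by
    intro z
    by_contra hcon
    push Not at hcon
    choose h hA' hh using fun n : ℕ => hcon n
    obtain ⟨a, ha⟩ := hlift h hA'
    have h1 : MapClusterPt (ι a z) atTop (fun n => h n z) :=
      ha.tendsto_comp (continuous_apply z).continuousAt
    rw [mapClusterPt_iff_frequently] at h1
    have h2 := h1 (Metric.ball (ι a z) 1) (Metric.ball_mem_nhds _ one_pos)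
    obtain ⟨N, hN⟩ := exists_nat_gt (|ι a z| + 1)
    rw [frequently_atTop] at h2
    obtain ⟨n, hn, hn2⟩ := h2 N
    rw [Metric.mem_ball, Real.dist_eq] at hn2
    have h3 := hh n
    have h4 : (N : ℝ) ≤ n := by exact_mod_cast hn
    have h5 : |h n z| ≤ |h n z - ι a z| + |ι a z| := by
      have := abs_add_le (h n z - ι a z) (ι a z)
      simpa using this
    linarith
  choose M hM using hbdd
  have hcompact : IsCompact (closure (ι '' A)) := by
    have hK : IsCompact (Set.pi univ (fun z : Z => Set.Icc (-(M z)) (M z))) :=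
      isCompact_univ_pi (fun z => isCompact_Icc)
    refine hK.of_isClosed_subset isClosed_closure ?_
    refine closure_minimal ?_ hK.isClosed
    intro h hh z _
    exact abs_le.mp (hM z h hh)
  have hrange : closure (ι '' A) ⊆ range ι := by
    intro f hf
    obtain ⟨s, hs, hsf⟩ := hZ (ι '' A) hRCC f hf
    obtain ⟨a, ha⟩ := hlift s hs
    exact ⟨a, eq_of_mapClusterPt_of_tendsto ha hsf⟩
  rw [hind.closure_eq_preimage_closure_image]
  exact hind.isCompact_preimage' hcompact hrange

/-! ### Push-forward along continuous functionals -/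

lemma RCC.mono {Z : Type u} [TopologicalSpace Z] {A B : Set (Z → ℝ)} (hA : RCC A) (h : B ⊆ A) :
    RCC B :=
  ⟨fun f hf => hA.1 f (h hf), fun s hs => hA.2 s (fun n => h (hs n))⟩

lemma RCC.image {Z : Type u} {X : Type v} [TopologicalSpace Z] [TopologicalSpace X]
    {A : Set (Z → ℝ)} (hA : RCC A) {Φ : (Z → ℝ) → (X → ℝ)} (hΦ : Continuous Φ)
    (hΦ' : ∀ h : Z → ℝ, Continuous h → Continuous (Φ h)) : RCC (Φ '' A) := by
  refine ⟨?_, ?_⟩
  · rintro _ ⟨g, hg, rfl⟩
    exact hΦ' g (hA.1 g hg)
  · intro s hs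
    choose g hgA hgs using hs
    obtain ⟨a, hac, ha⟩ := hA.2 g hgA
    refine ⟨Φ a, hΦ' a hac, ?_⟩
    have := ha.tendsto_comp hΦ.continuousAt
    have h2 : Φ ∘ g = s := funext hgs
    rwa [h2] at this

lemma Ang.continuous {Z : Type u} [TopologicalSpace Z] (hZ : Ang Z) {A : Set (Z → ℝ)}
    (hA : RCC A) {f : Z → ℝ} (hf : f ∈ closure A) : Continuous f := by
  obtain ⟨s, hs, hsf⟩ := hZ A hA f hf
  obtain ⟨a, hac, ha⟩ := hA.2 s hs
  rwa [← eq_of_mapClusterPt_of_tendsto ha hsf]

/-- The basic use of the angelic property of `C_p(X)`: a continuous functional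
`Φ : ℝ^Z → ℝ^X` that preserves continuity of functions. -/
lemma Ang.push {Z : Type u} {X : Type v} [TopologicalSpace Z] [TopologicalSpace X] (hX : Ang X)
    {A : Set (Z → ℝ)} (hA : RCC A) {f : Z → ℝ} (hf : f ∈ closure A)
    {Φ : (Z → ℝ) → (X → ℝ)} (hΦ : Continuous Φ)
    (hΦ' : ∀ h : Z → ℝ, Continuous h → Continuous (Φ h)) :
    Continuous (Φ f) ∧ ∃ s : ℕ → (Z → ℝ), (∀ n, s n ∈ A) ∧
      Tendsto (fun n => Φ (s n)) atTop (𝓝 (Φ f)) := by
  have h1 : RCC (Φ '' A) := hA.image hΦ hΦ'
  have h2 : Φ f ∈ closure (Φ '' A) :=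
    (image_closure_subset_closure_image hΦ) (mem_image_of_mem Φ hf)
  refine ⟨hX.continuous h1 h2, ?_⟩
  obtain ⟨s, hs, hsf⟩ := hX _ h1 _ h2
  choose g hgA hgs using hs
  refine ⟨g, hgA, ?_⟩
  have : (fun n => Φ (g n)) = s := funext hgs
  rwa [this]

/-! ### Grothendieck's theorem for compact spaces -/

lemma continuous_of_mem_closure_of_compact {K : Type v} [TopologicalSpace K] [CompactSpace K]
    {A : Set (K → ℝ)} (hA : RCC A) {f : K → ℝ} (hf : f ∈ closure A) : Continuous f := by
  rw [continuous_iff_continuousAt]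
  intro t₀
  by_contra hcon
  rw [Metric.continuousAt_iff'] at hcon
  push Not at hcon
  obtain ⟨ε, hε, hfreq⟩ := hcon
  -- approximation on finite sets
  have happrox : ∀ (F : Finset K) (δ : ℝ), 0 < δ → ∃ b ∈ A, ∀ t ∈ F, |b t - f t| < δ := by
    intro F δ hδ
    have hU : {h : K → ℝ | ∀ t ∈ F, |h t - f t| < δ} ∈ 𝓝 f := by
      have : {h : K → ℝ | ∀ t ∈ F, |h t - f t| < δ} =
          ⋂ t ∈ F, {h : K → ℝ | |h t - f t| < δ} := by
        ext h; simp
      rw [this, Filter.biInter_finset_mem]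
      intro t _
      have hc : Continuous (fun h : K → ℝ => |h t - f t|) :=
        ((continuous_apply t).sub continuous_const).abs
      exact (isOpen_lt hc continuous_const).mem_nhds (by simpa using hδ)
    obtain ⟨b, hb1, hb2⟩ := mem_closure_iff_nhds.mp hf _ hU
    exact ⟨b, hb2, hb1⟩
  let P : ℕ × (K → ℝ) × K → Prop := fun p => p.2.1 ∈ A ∧ ε ≤ |f p.2.2 - f t₀| ∧
    |p.2.1 t₀ - f t₀| < 1 / ((p.1 : ℝ) + 1) ∧ |p.2.1 p.2.2 - p.2.1 t₀| < 1 / ((p.1 : ℝ) + 1)
  let r : ℕ × (K → ℝ) × K → ℕ × (K → ℝ) × K → Prop := fun p q => p.1 < q.1 ∧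
    |q.2.1 p.2.2 - f p.2.2| < 1 / ((q.1 : ℝ) + 1) ∧
    |p.2.1 q.2.2 - p.2.1 t₀| < 1 / ((q.1 : ℝ) + 1)
  obtain ⟨p, hp, hr⟩ := exists_seq_of_forall_finset_exists P r (by
    classical
    intro S hS
    obtain ⟨m, hm⟩ : ∃ m : ℕ, ∀ x ∈ S, x.1 < m := by
      refine ⟨S.sup (fun x => x.1) + 1, fun x hx => ?_⟩
      exact Nat.lt_succ_of_le (Finset.le_sup (f := fun x : ℕ × (K → ℝ) × K => x.1) hx)
    have hδ : (0 : ℝ) < 1 / ((m : ℝ) + 1) := by positivity
    obtain ⟨b, hbA, hb⟩ := happrox (insert t₀ (S.image (fun x => x.2.2))) _ hδ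
    have hbc : Continuous b := hA.1 b hbA
    have hnear : ∀ᶠ t in 𝓝 t₀, |b t - b t₀| < 1 / ((m : ℝ) + 1) ∧
        ∀ x ∈ S, |x.2.1 t - x.2.1 t₀| < 1 / ((m : ℝ) + 1) := by
      refine Filter.Eventually.and ?_ ?_
      · have := (hbc.continuousAt (x := t₀))
        rw [Metric.continuousAt_iff'] at this
        simpa [Real.dist_eq] using this _ hδ
      · rw [Filter.eventually_all_finset]
        intro x hx
        have := ((hA.1 _ (hS x hx).1).continuousAt (x := t₀))
        rw [Metric.continuousAt_iff'] at this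
        simpa [Real.dist_eq] using this _ hδ
    obtain ⟨t, ht1, ht2⟩ := (hfreq.and_eventually hnear).exists
    refine ⟨(m, b, t), ⟨hbA, by simpa [Real.dist_eq] using ht1, ?_, ht2.1⟩, ?_⟩
    · exact hb t₀ (by simp)
    · intro x hx
      exact ⟨hm x hx, hb x.2.2 (by
        refine Finset.mem_insert_of_mem ?_
        exact Finset.mem_image_of_mem _ hx), ht2.2 x hx⟩)
  -- the index grows
  have hidx : ∀ n, n ≤ (p n).1 := by
    intro n
    induction n with
    | zero => exact Nat.zero_le _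
    | succ k ih =>
      exact Nat.succ_le_of_lt (lt_of_le_of_lt ih (hr k (k + 1) (Nat.lt_succ_self k)).1)
  have hsmall : ∀ n, 1 / (((p n).1 : ℝ) + 1) ≤ 1 / ((n : ℝ) + 1) := by
    intro n
    apply one_div_le_one_div_of_le (by positivity)
    have : (n : ℝ) ≤ (p n).1 := by exact_mod_cast hidx n
    linarith
  have hlim0 : Tendsto (fun n : ℕ => 1 / ((n : ℝ) + 1)) atTop (𝓝 0) :=
    tendsto_one_div_add_atTop_nhds_zero_nat
  obtain ⟨a, hac, ha⟩ := hA.2 (fun n => (p n).2.1) (fun n => (hp n).1)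
  obtain ⟨ts, hts⟩ : ∃ ts : K, MapClusterPt ts atTop (fun n => (p n).2.2) := by
    obtain ⟨x, _, hx⟩ := isCompact_univ (X := K) (f := map (fun n => (p n).2.2) atTop)
      (by simp)
    exact ⟨x, hx⟩
  -- evaluate
  have hev : ∀ t : K, MapClusterPt (a t) atTop (fun n => (p n).2.1 t) := fun t =>
    ha.tendsto_comp (continuous_apply t).continuousAt
  have hconv : ∀ (g : ℕ → ℝ) (c : ℝ) (N : ℕ), (∀ n, N < n → |g n - c| ≤ 1 / ((n : ℝ) + 1)) →
      Tendsto g atTop (𝓝 c) := by
    intro g c N hg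
    rw [tendsto_iff_dist_tendsto_zero]
    refine squeeze_zero' (Eventually.of_forall fun n => dist_nonneg) ?_ hlim0
    filter_upwards [eventually_gt_atTop N] with n hn
    rw [Real.dist_eq]
    exact hg n hn
  have ha0 : a t₀ = f t₀ := by
    refine eq_of_mapClusterPt_of_tendsto (hev t₀) (hconv _ _ 0 ?_)
    intro n _
    exact ((hp n).2.2.1).le.trans (hsmall n)
  have hai : ∀ i, a (p i).2.2 = f (p i).2.2 := by
    intro i
    refine eq_of_mapClusterPt_of_tendsto (hev _) (hconv _ _ i ?_)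
    intro n hn
    exact ((hr i n hn).2.1).le.trans (hsmall n)
  have hts' : ∀ i, (p i).2.1 ts = (p i).2.1 t₀ := by
    intro i
    have hc : Continuous (p i).2.1 := hA.1 _ (hp i).1
    refine eq_of_mapClusterPt_of_tendsto (hts.tendsto_comp hc.continuousAt) (hconv _ _ i ?_)
    intro n hn
    exact ((hr i n hn).2.2).le.trans (hsmall n)
  have hats : a ts = a t₀ := by
    have hcl : IsClosed {h : K → ℝ | h ts = h t₀} :=
      isClosed_eq (continuous_apply ts) (continuous_apply t₀)
    exact hcl.mem_of_mapClusterPt ha (Eventually.of_forall hts')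
  have hfar : ε ≤ |a ts - f t₀| := by
    have hcl : IsClosed {t : K | ε ≤ |a t - f t₀|} :=
      isClosed_le continuous_const ((hac.sub continuous_const).abs)
    refine hcl.mem_of_mapClusterPt hts (Eventually.of_forall ?_)
    intro n
    show ε ≤ |a (p n).2.2 - f t₀|
    rw [hai n]
    exact (hp n).2.1
  rw [hats, ha0] at hfar
  simp at hfar
  linarith

/-! ### Separate continuity of the closure points -/

section Product

variable {X : Type u} {K : Type v} [TopologicalSpace X] [TopologicalSpace K]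

lemma continuous_slice_left (hX : Ang X) {A : Set (X × K → ℝ)} (hA : RCC A) {f : X × K → ℝ}
    (hf : f ∈ closure A) (t : K) : Continuous (fun x => f (x, t)) := by
  have hΦ : Continuous (fun (h : X × K → ℝ) (x : X) => h (x, t)) :=
    continuous_pi fun x => continuous_apply (x, t)
  exact (hX.push hA hf hΦ (fun h hh => hh.comp (by fun_prop))).1

lemma continuous_slice_right [CompactSpace K] {A : Set (X × K → ℝ)} (hA : RCC A)
    {f : X × K → ℝ} (hf : f ∈ closure A) (x : X) : Continuous (fun t => f (x, t)) := by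
  have hΦ : Continuous (fun (h : X × K → ℝ) (t : K) => h (x, t)) :=
    continuous_pi fun t => continuous_apply (x, t)
  have h1 := hA.image hΦ (fun h hh => hh.comp (by fun_prop))
  exact continuous_of_mem_closure_of_compact h1
    ((image_closure_subset_closure_image hΦ) (mem_image_of_mem _ hf))

/-- On countably many slices a closure point agrees with a jointly continuous function. -/
lemma exists_continuous_eq_on_seq (hX : Ang X) {A : Set (X × K → ℝ)} (hA : RCC A)
    {f : X × K → ℝ} (hf : f ∈ closure A) (t : ℕ → K) :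
    ∃ g : X × K → ℝ, Continuous g ∧ ∀ x j, g (x, t j) = f (x, t j) := by
  let Φ : (X × K → ℝ) → (X → ℝ) := fun h x =>
    ∑' j : ℕ, (1 / 2 : ℝ) ^ j * min |h (x, t j) - f (x, t j)| 1
  have hsum : Summable (fun j : ℕ => (1 / 2 : ℝ) ^ j) := summable_geometric_two
  have hbd : ∀ (h : X × K → ℝ) (x : X) (j : ℕ),
      ‖(1 / 2 : ℝ) ^ j * min |h (x, t j) - f (x, t j)| 1‖ ≤ (1 / 2 : ℝ) ^ j := by
    intro h x j
    have h1 : (0 : ℝ) ≤ (1 / 2 : ℝ) ^ j := by positivity
    have h2 : 0 ≤ min |h (x, t j) - f (x, t j)| 1 := le_min (abs_nonneg _) zero_le_one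
    rw [Real.norm_eq_abs, abs_of_nonneg (mul_nonneg h1 h2)]
    calc (1 / 2 : ℝ) ^ j * min |h (x, t j) - f (x, t j)| 1 ≤ (1 / 2 : ℝ) ^ j * 1 :=
          mul_le_mul_of_nonneg_left (min_le_right _ _) h1
      _ = _ := mul_one _
  have hΦ : Continuous Φ := by
    refine continuous_pi fun x => ?_
    refine continuous_tsum (u := fun j : ℕ => (1 / 2 : ℝ) ^ j) ?_ hsum (fun j h => hbd h x j)
    intro j
    exact continuous_const.mul ((((continuous_apply (x, t j)).sub continuous_const).abs).min
      continuous_const)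
  have hΦ' : ∀ h : X × K → ℝ, Continuous h → Continuous (Φ h) := by
    intro h hh
    refine continuous_tsum (u := fun j : ℕ => (1 / 2 : ℝ) ^ j) ?_ hsum (fun j x => hbd h x j)
    intro j
    have h1 : Continuous (fun x => h (x, t j)) := hh.comp (by fun_prop)
    have h2 := continuous_slice_left hX hA hf (t j)
    exact continuous_const.mul (((h1.sub h2).abs).min continuous_const)
  obtain ⟨_, s, hs, hsf⟩ := hX.push hA hf hΦ hΦ'
  obtain ⟨g, hg, hgs⟩ := hA.2 s hs
  refine ⟨g, hg, ?_⟩
  have h1 : Φ g = Φ f :=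
    eq_of_mapClusterPt_of_tendsto (hgs.tendsto_comp hΦ.continuousAt) hsf
  intro x j
  have h2 : Φ f x = 0 := by simp [Φ]
  have h3 : Φ g x = 0 := by rw [h1, h2]
  have hsm : Summable (fun j : ℕ => (1 / 2 : ℝ) ^ j * min |g (x, t j) - f (x, t j)| 1) :=
    Summable.of_norm_bounded hsum (hbd g x)
  have h4 : (1 / 2 : ℝ) ^ j * min |g (x, t j) - f (x, t j)| 1 ≤ 0 := by
    rw [← h3]
    exact hsm.le_tsum j (fun i _ => mul_nonneg (by positivity)
      (le_min (abs_nonneg _) zero_le_one))
  have h5 : min |g (x, t j) - f (x, t j)| 1 ≤ 0 := by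
    have : (0 : ℝ) < (1 / 2 : ℝ) ^ j := by positivity
    by_contra hc
    push Not at hc
    exact absurd h4 (not_le.mpr (mul_pos this hc))
  have h6 : |g (x, t j) - f (x, t j)| ≤ 0 := by
    rcases min_le_iff.mp h5 with h | h
    · exact h
    · linarith
  have h7 := abs_nonpos_iff.mp h6
  linarith

/-- Closure points of `A` are jointly continuous (the g-space part of the theorem). -/
lemma continuous_of_mem_closure_prod [CompactSpace K] (hX : Ang X) {A : Set (X × K → ℝ)}
    (hA : RCC A) {f : X × K → ℝ} (hf : f ∈ closure A) : Continuous f := by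
  classical
  have hL := continuous_slice_left hX hA hf
  have hR := continuous_slice_right hA hf
  let F : X → C(K, ℝ) := fun x => ⟨fun t => f (x, t), hR x⟩
  rw [continuous_iff_continuousAt]
  rintro ⟨x₀, t₀⟩
  let dd : Finset K → X → ℝ := fun D x => ‖(fun t : D => f (x, t) - f (x₀, t))‖
  have hddc : ∀ D, Continuous (dd D) := by
    intro D
    exact continuous_norm.comp (continuous_pi fun t => (hL t).sub continuous_const)
  have hRCC : RCC (range dd) := by
    refine ⟨?_, ?_⟩
    · rintro _ ⟨D, rfl⟩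
      exact hddc D
    · intro s hs
      choose D hD using hs
      have hcount : (insert t₀ (⋃ n, (D n : Set K))).Countable :=
        (Set.countable_iUnion fun n => (D n).countable_toSet).insert t₀
      obtain ⟨t, ht⟩ := hcount.exists_eq_range ⟨t₀, mem_insert _ _⟩
      obtain ⟨g, hg, hgf⟩ := exists_continuous_eq_on_seq hX hA hf t
      have hgf' : ∀ n, ∀ τ ∈ D n, ∀ x, g (x, τ) = f (x, τ) := by
        intro n τ hτ x
        have : τ ∈ range t := by
          rw [← ht]
          exact mem_insert_of_mem _ (mem_iUnion.mpr ⟨n, hτ⟩)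
        obtain ⟨j, rfl⟩ := this
        exact hgf x j
      let G : C(X, C(K, ℝ)) := ContinuousMap.curry ⟨g, hg⟩
      have hG : ∀ x t, G x t = g (x, t) := fun x t => rfl
      have hlip : ∀ n x y, |s n x - s n y| ≤ ‖G x - G y‖ := by
        intro n x y
        rw [← hD n]
        refine (abs_norm_sub_norm_le _ _).trans ?_
        rw [pi_norm_le_iff_of_nonneg (norm_nonneg _)]
        intro τ
        have h1 : ((fun t : D n => f (x, t) - f (x₀, t)) - fun t : D n => f (y, t) - f (x₀, t)) τ
            = (G x - G y) τ := by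
          simp only [Pi.sub_apply, ContinuousMap.sub_apply, hG]
          rw [hgf' n τ τ.2 x, hgf' n τ τ.2 y]
          ring
        rw [h1]
        exact ContinuousMap.norm_coe_le_norm _ _
      have hbase : ∀ n, s n x₀ = 0 := by
        intro n
        rw [← hD n]
        simp only [dd, sub_self]
        exact norm_zero
      have hmem : ∀ n, s n ∈ Set.pi univ (fun x => Set.Icc (-‖G x - G x₀‖) ‖G x - G x₀‖) := by
        intro n x _
        have := hlip n x x₀
        rw [hbase n, sub_zero] at this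
        exact abs_le.mp this
      have hK : IsCompact (Set.pi univ (fun x => Set.Icc (-‖G x - G x₀‖) ‖G x - G x₀‖)) :=
        isCompact_univ_pi (fun x => isCompact_Icc)
      obtain ⟨a, _, ha⟩ := hK (f := map s atTop) (by
        rw [le_principal_iff, mem_map]
        exact Filter.univ_mem' hmem)
      refine ⟨a, ?_, ha⟩
      have halip : ∀ x y, |a x - a y| ≤ ‖G x - G y‖ := by
        intro x y
        have hcl : IsClosed {h : X → ℝ | |h x - h y| ≤ ‖G x - G y‖} :=
          isClosed_le (((continuous_apply x).sub (continuous_apply y)).abs) continuous_const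
        exact hcl.mem_of_mapClusterPt ha (Eventually.of_forall fun n => hlip n x y)
      rw [continuous_iff_continuousAt]
      intro y
      have hGy : Tendsto (fun x => ‖G x - G y‖) (𝓝 y) (𝓝 0) := by
        have : Continuous (fun x => ‖G x - G y‖) := (G.continuous.sub continuous_const).norm
        have h2 := this.tendsto y
        simpa using h2
      rw [ContinuousAt, tendsto_iff_dist_tendsto_zero]
      refine squeeze_zero (fun _ => dist_nonneg) (fun x => ?_) hGy
      rw [Real.dist_eq]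
      exact halip x y
  have hlim : Tendsto dd atTop (𝓝 (fun x => ‖F x - F x₀‖)) := by
    rw [tendsto_pi_nhds]
    intro x
    have hle : ∀ D, dd D x ≤ ‖F x - F x₀‖ := by
      intro D
      rw [pi_norm_le_iff_of_nonneg (norm_nonneg _)]
      intro τ
      exact ContinuousMap.norm_coe_le_norm (F x - F x₀) τ
    rw [Metric.tendsto_atTop]
    intro ε hε
    by_cases hneg : ‖F x - F x₀‖ - ε < 0
    · refine ⟨∅, fun D _ => ?_⟩
      rw [Real.dist_eq, abs_sub_lt_iff]
      have h1 : 0 ≤ dd D x := norm_nonneg _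
      have h2 := hle D
      constructor <;> linarith
    · push Not at hneg
      have h3 : ∃ t, ‖F x - F x₀‖ - ε < ‖(F x - F x₀) t‖ := by
        by_contra hcon
        push Not at hcon
        have h4 : ‖F x - F x₀‖ ≤ ‖F x - F x₀‖ - ε :=
          (ContinuousMap.norm_le _ hneg).mpr hcon
        linarith
      obtain ⟨t, ht⟩ := h3
      refine ⟨{t}, fun D hD => ?_⟩
      have htD : t ∈ D := hD (Finset.mem_singleton_self t)
      have h5 : ‖(F x - F x₀) t‖ ≤ dd D x :=
        norm_le_pi_norm (fun t : D => f (x, t) - f (x₀, t)) ⟨t, htD⟩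
      rw [Real.dist_eq, abs_sub_lt_iff]
      have h2 := hle D
      constructor <;> linarith
  have hmemcl : (fun x => ‖F x - F x₀‖) ∈ closure (range dd) :=
    mem_closure_of_tendsto hlim (Eventually.of_forall fun D => mem_range_self D)
  have hcont := hX.continuous hRCC hmemcl
  have h0 : Tendsto (fun x => ‖F x - F x₀‖) (𝓝 x₀) (𝓝 0) := by
    have := hcont.tendsto x₀
    simpa using this
  -- conclude joint continuity at `(x₀, t₀)`
  rw [ContinuousAt, tendsto_iff_dist_tendsto_zero]
  have h1 : Tendsto (fun p : X × K => ‖F p.1 - F x₀‖ + |f (x₀, p.2) - f (x₀, t₀)|)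
      (𝓝 (x₀, t₀)) (𝓝 0) := by
    have ha : Tendsto (fun p : X × K => ‖F p.1 - F x₀‖) (𝓝 (x₀, t₀)) (𝓝 0) :=
      h0.comp (continuous_fst.tendsto (x₀, t₀))
    have hb : Tendsto (fun p : X × K => |f (x₀, p.2) - f (x₀, t₀)|) (𝓝 (x₀, t₀)) (𝓝 0) := by
      have hc : Continuous (fun p : X × K => |f (x₀, p.2) - f (x₀, t₀)|) :=
        (((hR x₀).comp continuous_snd).sub continuous_const).abs
      have := hc.tendsto (x₀, t₀)
      simpa using this
    simpa using ha.add hb
  refine squeeze_zero (fun _ => dist_nonneg) (fun p => ?_) h1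
  obtain ⟨x, t⟩ := p
  rw [Real.dist_eq]
  have h2 : |f (x, t) - f (x₀, t)| ≤ ‖F x - F x₀‖ :=
    ContinuousMap.norm_coe_le_norm (F x - F x₀) t
  calc |f (x, t) - f (x₀, t₀)|
      = |(f (x, t) - f (x₀, t)) + (f (x₀, t) - f (x₀, t₀))| := by ring_nf
    _ ≤ |f (x, t) - f (x₀, t)| + |f (x₀, t) - f (x₀, t₀)| := abs_add_le _ _
    _ ≤ ‖F x - F x₀‖ + |f (x₀, t) - f (x₀, t₀)| := by linarith

end Product

/-! ### The sequential part: closure points are limits of sequences -/

lemma mem_closure_pi_of_approx {X : Type u} {S : Set (X → ℝ)} {f : X → ℝ}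
    (h : ∀ (F : Finset X) (ε : ℝ), 0 < ε → ∃ g ∈ S, ∀ x ∈ F, |g x - f x| < ε) :
    f ∈ closure S := by
  rw [mem_closure_iff_nhds]
  intro U hU
  rw [nhds_pi, Filter.mem_pi] at hU
  obtain ⟨I, hI, t, ht, hsub⟩ := hU
  have h1 : ∀ x, ∃ ε > 0, Metric.ball (f x) ε ⊆ t x := fun x => Metric.mem_nhds_iff.mp (ht x)
  choose ε hε hball using h1
  have hlim0 : Tendsto (fun n : ℕ => 1 / ((n : ℝ) + 1)) atTop (𝓝 0) :=
    tendsto_one_div_add_atTop_nhds_zero_nat
  have h2 : ∀ᶠ n : ℕ in atTop, ∀ x ∈ I, 1 / ((n : ℝ) + 1) < ε x := by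
    rw [Filter.eventually_all_finite hI]
    intro x _
    exact hlim0.eventually_lt_const (hε x)
  obtain ⟨n, hn⟩ := h2.exists
  obtain ⟨g, hgS, hg⟩ := h hI.toFinset (1 / ((n : ℝ) + 1)) (by positivity)
  refine ⟨g, hsub ?_, hgS⟩
  intro x hx
  apply hball x
  rw [Metric.mem_ball, Real.dist_eq]
  exact (hg x (by simpa using hx)).trans (hn x hx)

/-- Simultaneous handling of countably many functionals. -/
lemma exists_seq_of_functionals {Z : Type u} {X : Type v} [TopologicalSpace Z]
    [TopologicalSpace X] (hX : Ang X) {A : Set (Z → ℝ)} (hA : RCC A)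
    (T : ℕ → (Z → ℝ) → (X → ℝ)) (hTc : ∀ i, Continuous (T i))
    (hTc' : ∀ i h, Continuous h → Continuous (T i h)) (hT0 : ∀ i h x, 0 ≤ T i h x)
    (happ : ∀ (N : ℕ) (S : Finset X) (ε : ℝ), 0 < ε → ∃ a ∈ A, ∀ i < N, ∀ x ∈ S, T i a x < ε) :
    ∃ s : ℕ → (Z → ℝ), (∀ k, s k ∈ A) ∧ ∀ i x, Tendsto (fun k => T i (s k) x) atTop (𝓝 0) := by
  let Φ : (Z → ℝ) → (X → ℝ) := fun h x => ∑' i : ℕ, (1 / 2 : ℝ) ^ i * min (T i h x) 1
  have hsum : Summable (fun j : ℕ => (1 / 2 : ℝ) ^ j) := summable_geometric_two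
  have hm0 : ∀ h x i, 0 ≤ min (T i h x) 1 := fun h x i => le_min (hT0 i h x) zero_le_one
  have hterm0 : ∀ h x i, 0 ≤ (1 / 2 : ℝ) ^ i * min (T i h x) 1 := fun h x i =>
    mul_nonneg (by positivity) (hm0 h x i)
  have hterm1 : ∀ h x i, (1 / 2 : ℝ) ^ i * min (T i h x) 1 ≤ (1 / 2 : ℝ) ^ i := fun h x i =>
    calc (1 / 2 : ℝ) ^ i * min (T i h x) 1 ≤ (1 / 2 : ℝ) ^ i * 1 :=
          mul_le_mul_of_nonneg_left (min_le_right _ _) (by positivity)
      _ = _ := mul_one _
  have hbd : ∀ (h : Z → ℝ) (x : X) (i : ℕ),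
      ‖(1 / 2 : ℝ) ^ i * min (T i h x) 1‖ ≤ (1 / 2 : ℝ) ^ i := by
    intro h x i
    rw [Real.norm_eq_abs, abs_of_nonneg (hterm0 h x i)]
    exact hterm1 h x i
  have hsm : ∀ h x, Summable (fun i : ℕ => (1 / 2 : ℝ) ^ i * min (T i h x) 1) := fun h x =>
    Summable.of_norm_bounded hsum (hbd h x)
  have hΦ : Continuous Φ := by
    refine continuous_pi fun x => ?_
    refine continuous_tsum (u := fun j : ℕ => (1 / 2 : ℝ) ^ j) ?_ hsum (fun j h => hbd h x j)
    intro j
    exact continuous_const.mul (((continuous_apply x).comp (hTc j)).min continuous_const)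
  have hΦ' : ∀ h : Z → ℝ, Continuous h → Continuous (Φ h) := by
    intro h hh
    refine continuous_tsum (u := fun j : ℕ => (1 / 2 : ℝ) ^ j) ?_ hsum (fun j x => hbd h x j)
    intro j
    exact continuous_const.mul ((hTc' j h hh).min continuous_const)
  have hΦ0 : ∀ h x, 0 ≤ Φ h x := fun h x => tsum_nonneg (hterm0 h x)
  have hcl : (0 : X → ℝ) ∈ closure (Φ '' A) := by
    apply mem_closure_pi_of_approx
    intro S ε hε
    obtain ⟨N, hN⟩ : ∃ N : ℕ, 2 * (1 / 2 : ℝ) ^ N < ε / 2 := by
      have h1 : Tendsto (fun n : ℕ => 2 * (1 / 2 : ℝ) ^ n) atTop (𝓝 (2 * 0)) :=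
        (tendsto_pow_atTop_nhds_zero_of_lt_one (by norm_num) (by norm_num)).const_mul 2
      rw [mul_zero] at h1
      exact (h1.eventually_lt_const (half_pos hε)).exists
    obtain ⟨a, haA, ha⟩ := happ N S (ε / 4) (by positivity)
    refine ⟨Φ a, mem_image_of_mem _ haA, ?_⟩
    intro x hx
    rw [Pi.zero_apply, sub_zero, abs_of_nonneg (hΦ0 a x)]
    have hsplit := (hsm a x).sum_add_tsum_nat_add N
    have hΦa : Φ a x = (∑ i ∈ Finset.range N, (1 / 2 : ℝ) ^ i * min (T i a x) 1) +
        ∑' i : ℕ, (1 / 2 : ℝ) ^ (i + N) * min (T (i + N) a x) 1 := hsplit.symm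
    have h1 : (∑ i ∈ Finset.range N, (1 / 2 : ℝ) ^ i * min (T i a x) 1) ≤ ε / 2 := by
      calc (∑ i ∈ Finset.range N, (1 / 2 : ℝ) ^ i * min (T i a x) 1)
          ≤ ∑ i ∈ Finset.range N, (1 / 2 : ℝ) ^ i * (ε / 4) := by
            refine Finset.sum_le_sum fun i hi => ?_
            refine mul_le_mul_of_nonneg_left ?_ (by positivity)
            exact (min_le_left _ _).trans (ha i (Finset.mem_range.mp hi) x hx).le
        _ = (∑ i ∈ Finset.range N, (1 / 2 : ℝ) ^ i) * (ε / 4) := by rw [Finset.sum_mul]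
        _ ≤ 2 * (ε / 4) := by
            refine mul_le_mul_of_nonneg_right ?_ (by positivity)
            have h2 := hsum.sum_le_tsum (Finset.range N) (fun i _ => by positivity)
            rwa [tsum_geometric_two] at h2
        _ = ε / 2 := by ring
    have h2 : (∑' i : ℕ, (1 / 2 : ℝ) ^ (i + N) * min (T (i + N) a x) 1) ≤
        2 * (1 / 2 : ℝ) ^ N := by
      have hs1 : Summable (fun i : ℕ => (1 / 2 : ℝ) ^ (i + N) * min (T (i + N) a x) 1) :=
        (summable_nat_add_iff (f := fun i : ℕ => (1 / 2 : ℝ) ^ i * min (T i a x) 1) N).mpr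
          (hsm a x)
      have hs2 : Summable (fun i : ℕ => (1 / 2 : ℝ) ^ (i + N)) :=
        (summable_nat_add_iff (f := fun i : ℕ => (1 / 2 : ℝ) ^ i) N).mpr hsum
      calc (∑' i : ℕ, (1 / 2 : ℝ) ^ (i + N) * min (T (i + N) a x) 1)
          ≤ ∑' i : ℕ, (1 / 2 : ℝ) ^ (i + N) := hs1.tsum_le_tsum (fun i => hterm1 a x (i + N)) hs2
        _ = ∑' i : ℕ, (1 / 2 : ℝ) ^ i * (1 / 2 : ℝ) ^ N := by
            congr 1; ext i; rw [pow_add]
        _ = (∑' i : ℕ, (1 / 2 : ℝ) ^ i) * (1 / 2 : ℝ) ^ N := tsum_mul_right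
        _ = 2 * (1 / 2 : ℝ) ^ N := by rw [tsum_geometric_two]
    rw [hΦa]
    linarith
  obtain ⟨s, hs, hsf⟩ := hX _ (hA.image hΦ hΦ') _ hcl
  choose g hgA hgs using hs
  refine ⟨g, hgA, ?_⟩
  intro i x
  have h1 : Tendsto (fun k => Φ (g k) x) atTop (𝓝 0) := by
    have h2 := (tendsto_pi_nhds.mp hsf) x
    have h3 : (fun k => Φ (g k) x) = (fun k => s k x) := by
      ext k; rw [hgs k]
    rw [h3]
    exact h2
  have h2 : Tendsto (fun k => (1 / 2 : ℝ) ^ i * min (T i (g k) x) 1) atTop (𝓝 0) := by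
    refine squeeze_zero (fun k => hterm0 (g k) x i) (fun k => ?_) h1
    exact (hsm (g k) x).le_tsum i (fun j _ => hterm0 (g k) x j)
  have h3 : Tendsto (fun k => min (T i (g k) x) 1) atTop (𝓝 0) := by
    have h4 := h2.const_mul ((2 : ℝ) ^ i)
    rw [mul_zero] at h4
    refine h4.congr fun k => ?_
    rw [← mul_assoc, ← mul_pow]
    norm_num
  rw [Metric.tendsto_atTop] at h3 ⊢
  intro ε hε
  obtain ⟨N, hN⟩ := h3 (min ε 1) (lt_min hε one_pos)
  refine ⟨N, fun n hn => ?_⟩
  have h5 := hN n hn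
  rw [Real.dist_eq, sub_zero, abs_of_nonneg (hm0 _ _ _)] at h5
  rw [Real.dist_eq, sub_zero, abs_of_nonneg (hT0 _ _ _)]
  rcases min_lt_iff.mp (h5.trans_le (min_le_right _ _)) with h | h
  · rw [min_eq_left h.le] at h5
    exact h5.trans_le (min_le_left _ _)
  · exact absurd h (lt_irrefl _)

section Product

variable {X : Type u} {K : Type v} [TopologicalSpace X] [TopologicalSpace K]

/-- The averaging functional attached to finitely many jointly continuous functions and a
precision. -/
lemma exists_functional [CompactSpace K] {f : X × K → ℝ} (hf : Continuous f)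
    (F : Finset C(X × K, ℝ)) (δ : ℝ) (hδ : 0 < δ) :
    ∃ T : (X × K → ℝ) → (X → ℝ), Continuous T ∧ (∀ h, Continuous h → Continuous (T h)) ∧
      T f = 0 ∧ (∀ h x, 0 ≤ T h x) ∧
      ∀ x (t₁ : K), ∃ t' : K, (∀ b ∈ F, |b (x, t') - b (x, t₁)| < δ) ∧
        ∃ c > 0, ∀ h, c * min |h (x, t') - f (x, t')| 1 ≤ T h x := by
  classical
  let E := C(K, F → ℝ)
  let β : C(X, E) := ContinuousMap.curry
    ⟨fun p (b : F) => b.1 p, continuous_pi fun b => b.1.continuous⟩
  have hβ : ∀ x t (b : F), β x t b = b.1 (x, t) := fun x t b => rfl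
  have hδ3 : 0 < δ / 3 := by positivity
  -- finite dense sets
  have hD : ∀ e : E, ∃ D : Finset K, ∀ t : K, ∃ t' ∈ D, dist (e t) (e t') < δ / 3 := by
    intro e
    obtain ⟨D, hD⟩ := CompactSpace.elim_nhds_subcover
      (fun t' : K => {t : K | dist (e t) (e t') < δ / 3}) (by
        intro t'
        have : IsOpen {t : K | dist (e t) (e t') < δ / 3} :=
          isOpen_lt (e.continuous.dist continuous_const) continuous_const
        exact this.mem_nhds (by simpa using hδ3))
    refine ⟨D, fun t => ?_⟩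
    have : t ∈ ⋃ x ∈ D, {t : K | dist (e t) (e x) < δ / 3} := by
      rw [hD]; trivial
    simpa using this
  choose D hD using hD
  obtain ⟨lam, hlam⟩ := PartitionOfUnity.exists_isSubordinate (X := E) (s := univ)
    isClosed_univ (fun e : E => Metric.ball e (δ / 3)) (fun e => Metric.isOpen_ball) (by
      intro e _
      exact mem_iUnion.mpr ⟨e, Metric.mem_ball_self hδ3⟩)
  -- the averages
  let m : E → (X × K → ℝ) → X → ℝ := fun e h x =>
    (∑ t ∈ D e, min |h (x, t) - f (x, t)| 1) / ((D e).card + 1)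
  have hm0 : ∀ e h x, 0 ≤ m e h x := by
    intro e h x
    refine div_nonneg (Finset.sum_nonneg fun t _ => le_min (abs_nonneg _) zero_le_one) ?_
    positivity
  have hmc : ∀ e x, Continuous (fun h => m e h x) := by
    intro e x
    refine Continuous.div_const (continuous_finsetSum _ fun t _ => ?_) _
    exact (((continuous_apply (x, t)).sub continuous_const).abs).min continuous_const
  have hmc' : ∀ e h, Continuous h → Continuous (m e h) := by
    intro e h hh
    refine Continuous.div_const (continuous_finsetSum _ fun t _ => ?_) _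
    have h1 : Continuous (fun x => h (x, t)) := hh.comp (by fun_prop)
    have h2 : Continuous (fun x => f (x, t)) := hf.comp (by fun_prop)
    exact ((h1.sub h2).abs).min continuous_const
  have hterm0 : ∀ e h x, 0 ≤ lam e (β x) * m e h x := fun e h x =>
    mul_nonneg (lam.nonneg e _) (hm0 e h x)
  have hfin : ∀ x, {e | β x ∈ Function.support (lam e)}.Finite := fun x =>
    lam.locallyFinite.point_finite (β x)
  have hsupp : ∀ h x, Function.support (fun e => lam e (β x) * m e h x) ⊆
      {e | β x ∈ Function.support (lam e)} := by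
    intro h x e he
    rw [Function.mem_support] at he
    exact left_ne_zero_of_mul he
  refine ⟨fun h x => ∑ᶠ e : E, lam e (β x) * m e h x, ?_, ?_, ?_, ?_, ?_⟩
  · refine continuous_pi fun x => ?_
    have h1 : ∀ h, ∑ᶠ e : E, lam e (β x) * m e h x =
        ∑ e ∈ (hfin x).toFinset, lam e (β x) * m e h x := by
      intro h
      apply finsum_eq_sum_of_support_subset
      simpa using hsupp h x
    simp_rw [h1]
    exact continuous_finsetSum _ fun e _ => continuous_const.mul (hmc e x)
  · intro h hh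
    refine continuous_finsum (fun e => ?_) ?_
    · exact ((lam e).continuous.comp β.continuous).mul (hmc' e h hh)
    · refine (lam.locallyFinite.preimage_continuous β.continuous).subset ?_
      intro e x hx
      rw [Function.mem_support] at hx
      exact left_ne_zero_of_mul hx
  · ext x
    have : ∀ e : E, lam e (β x) * m e f x = 0 := by
      intro e
      simp [m]
    simp [this]
  · intro h x
    exact finsum_nonneg fun e => hterm0 e h x
  · intro x t₁
    obtain ⟨e, he⟩ := lam.exists_pos (mem_univ (β x))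
    have hball : β x ∈ Metric.ball e (δ / 3) :=
      hlam e (subset_tsupport _ (by rw [Function.mem_support]; exact he.ne'))
    obtain ⟨t', ht', hdist⟩ := hD e t₁
    refine ⟨t', ?_, lam e (β x) / ((D e).card + 1), by positivity, ?_⟩
    · intro b hb
      have h1 : dist (β x t') (β x t₁) < δ := by
        have h2 : dist (β x t') (e t') < δ / 3 :=
          lt_of_le_of_lt (ContinuousMap.dist_apply_le_dist t') hball
        have h3 : dist (e t₁) (β x t₁) < δ / 3 := by
          rw [dist_comm]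
          exact lt_of_le_of_lt (ContinuousMap.dist_apply_le_dist t₁) hball
        rw [dist_comm] at hdist
        calc dist (β x t') (β x t₁) ≤ dist (β x t') (e t') + dist (e t') (e t₁)
              + dist (e t₁) (β x t₁) := dist_triangle4 _ _ _ _
          _ < δ / 3 + δ / 3 + δ / 3 := by linarith
          _ = δ := by ring
      have h4 : dist (β x t' ⟨b, hb⟩) (β x t₁ ⟨b, hb⟩) ≤ dist (β x t') (β x t₁) :=
        dist_le_pi_dist _ _ _
      rw [Real.dist_eq] at h4
      exact h4.trans_lt h1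
    · intro h
      have h1 : lam e (β x) * m e h x ≤ ∑ᶠ e : E, lam e (β x) * m e h x :=
        single_le_finsum e ((hfin x).subset (hsupp h x)) (fun j => hterm0 j h x)
      refine le_trans ?_ h1
      have h2 : min |h (x, t') - f (x, t')| 1 ≤ ∑ t ∈ D e, min |h (x, t) - f (x, t)| 1 :=
        Finset.single_le_sum (f := fun t => min |h (x, t) - f (x, t)| 1)
          (fun t _ => le_min (abs_nonneg _) zero_le_one) ht'
      have hc : (0 : ℝ) < (D e).card + 1 := by positivity
      calc lam e (β x) / ((D e).card + 1) * min |h (x, t') - f (x, t')| 1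
          ≤ lam e (β x) / ((D e).card + 1) * ∑ t ∈ D e, min |h (x, t) - f (x, t)| 1 :=
            mul_le_mul_of_nonneg_left h2 (by positivity)
        _ = lam e (β x) * m e h x := by
            simp only [m]
            ring

end Product

section Product

variable {X : Type u} {K : Type v} [TopologicalSpace X] [TopologicalSpace K]

lemma exists_seq_tendsto [CompactSpace K] (hX : Ang X) {A : Set (X × K → ℝ)} (hA : RCC A)
    {f : X × K → ℝ} (hf : f ∈ closure A) :
    ∃ s : ℕ → (X × K → ℝ), (∀ n, s n ∈ A) ∧ Tendsto s atTop (𝓝 f) := by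
  classical
  have hfc : Continuous f := continuous_of_mem_closure_prod hX hA hf
  have hδ : ∀ n : ℕ, (0 : ℝ) < 1 / ((n : ℝ) + 1) := fun n => by positivity
  -- the functionals
  choose T hTc hTc' hTf hT0 hTx using
    fun (p : Finset C(X × K, ℝ) × ℕ) => exists_functional hfc p.1 (1 / ((p.2 : ℝ) + 1)) (hδ p.2)
  -- countability of the index set
  have hcount : ∀ B : Set C(X × K, ℝ), B.Countable →
      {p : Finset C(X × K, ℝ) × ℕ | (p.1 : Set C(X × K, ℝ)) ⊆ B}.Countable := by
    intro B hB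
    have : Countable B := hB.to_subtype
    refine (Set.countable_range (fun q : Finset B × ℕ =>
      (q.1.map (Function.Embedding.subtype _), q.2))).mono ?_
    rintro ⟨F, n⟩ hF
    refine ⟨(F.subtype (· ∈ B), n), ?_⟩
    simp only [Prod.mk.injEq, and_true]
    rw [Finset.subtype_map]
    ext b
    simp only [Finset.mem_filter]
    exact ⟨fun h => h.1, fun h => ⟨h, hF h⟩⟩
  have hne : ∀ B : Set C(X × K, ℝ),
      {p : Finset C(X × K, ℝ) × ℕ | (p.1 : Set C(X × K, ℝ)) ⊆ B}.Nonempty :=
    fun B => ⟨(∅, 0), by simp⟩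
  -- a sequence for a subset of `A` and a countable set of test functions
  have hmain : ∀ (B : Set C(X × K, ℝ)) (A' : Set (X × K → ℝ)), B.Countable → A' ⊆ A →
      (∀ (P : Finset (Finset C(X × K, ℝ) × ℕ)), (∀ p ∈ P, (p.1 : Set C(X × K, ℝ)) ⊆ B) →
        ∀ (S : Finset X) (ε : ℝ), 0 < ε → ∃ a ∈ A', ∀ p ∈ P, ∀ x ∈ S, T p a x < ε) →
      ∃ s : ℕ → (X × K → ℝ), (∀ k, s k ∈ A') ∧
        ∀ p : Finset C(X × K, ℝ) × ℕ, (p.1 : Set C(X × K, ℝ)) ⊆ B →
          ∀ x, Tendsto (fun k => T p (s k) x) atTop (𝓝 0) := by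
    intro B A' hB hA' happ
    obtain ⟨e, he⟩ := (hcount B hB).exists_eq_range (hne B)
    have heB : ∀ i, ((e i).1 : Set C(X × K, ℝ)) ⊆ B := by
      intro i
      have : e i ∈ range e := mem_range_self i
      rw [← he] at this
      exact this
    obtain ⟨s, hs, hsT⟩ := exists_seq_of_functionals hX (hA.mono hA') (fun i => T (e i))
      (fun i => hTc _) (fun i => hTc' _) (fun i => hT0 _) (by
        intro N S ε hε
        obtain ⟨a, ha, haT⟩ := happ ((Finset.range N).image e) (by
          intro p hp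
          obtain ⟨i, _, rfl⟩ := Finset.mem_image.mp hp
          exact heB i) S ε hε
        refine ⟨a, ha, fun i hi x hx => haT _ ?_ x hx⟩
        exact Finset.mem_image_of_mem _ (Finset.mem_range.mpr hi))
    refine ⟨s, hs, ?_⟩
    intro p hp x
    have : p ∈ range e := by
      rw [← he]; exact hp
    obtain ⟨i, rfl⟩ := this
    exact hsT i x
  -- one step
  have hstep : ∀ B : {B : Set C(X × K, ℝ) // B.Countable}, ∃ s : ℕ → C(X × K, ℝ),
      (∀ k, (s k : X × K → ℝ) ∈ A) ∧
        ∀ p : Finset C(X × K, ℝ) × ℕ, (p.1 : Set C(X × K, ℝ)) ⊆ B.1 →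
          ∀ x, Tendsto (fun k => T p (s k) x) atTop (𝓝 0) := by
    rintro ⟨B, hB⟩
    obtain ⟨s, hs, hsT⟩ := hmain B A hB Subset.rfl (by
      intro P _ S ε hε
      have hU : {h : X × K → ℝ | ∀ p ∈ P, ∀ x ∈ S, T p h x < ε} ∈ 𝓝 f := by
        have h1 : ∀ᶠ h in 𝓝 f, ∀ p ∈ P, ∀ x ∈ S, T p h x < ε := by
          rw [Filter.eventually_all_finset]
          intro p _
          rw [Filter.eventually_all_finset]
          intro x _
          have h2 : Continuous (fun h => T p h x) := (continuous_apply x).comp (hTc p)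
          have h3 : T p f x < ε := by rw [hTf p]; exact hε
          exact h2.continuousAt.eventually_lt_const h3
        exact h1
      obtain ⟨a, ha1, ha2⟩ := mem_closure_iff_nhds.mp hf _ hU
      exact ⟨a, ha2, ha1⟩)
    exact ⟨fun k => ⟨s k, hA.1 _ (hs k)⟩, hs, hsT⟩
  choose S hSA hST using hstep
  -- closing off
  let Bs : ℕ → {B : Set C(X × K, ℝ) // B.Countable} := fun n =>
    Nat.rec ⟨{⟨f, hfc⟩}, Set.countable_singleton _⟩
      (fun _ B => ⟨B.1 ∪ range (S B), B.2.union (Set.countable_range _)⟩) n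
  have hBs0 : (Bs 0).1 = {⟨f, hfc⟩} := rfl
  have hBs1 : ∀ n, (Bs (n + 1)).1 = (Bs n).1 ∪ range (S (Bs n)) := fun n => rfl
  have hmono : Monotone (fun n => (Bs n).1) := by
    refine monotone_nat_of_le_succ fun n => ?_
    show (Bs n).1 ⊆ (Bs (n + 1)).1
    rw [hBs1]
    exact subset_union_left
  let Bω : Set C(X × K, ℝ) := ⋃ n, (Bs n).1
  have hBω : Bω.Countable := Set.countable_iUnion fun n => (Bs n).2
  have hfB : (⟨f, hfc⟩ : C(X × K, ℝ)) ∈ Bω := mem_iUnion.mpr ⟨0, by rw [hBs0]; rfl⟩
  have hfinsub : ∀ F : Finset C(X × K, ℝ), (F : Set C(X × K, ℝ)) ⊆ Bω →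
      ∃ n, (F : Set C(X × K, ℝ)) ⊆ (Bs n).1 := by
    intro F hF
    have h1 : ∀ b : C(X × K, ℝ), ∃ n, b ∈ F → b ∈ (Bs n).1 := by
      intro b
      by_cases hb : b ∈ F
      · obtain ⟨n, hn⟩ := mem_iUnion.mp (hF hb)
        exact ⟨n, fun _ => hn⟩
      · exact ⟨0, fun h => absurd h hb⟩
    choose n hn using h1
    refine ⟨F.sup n, fun b hb => ?_⟩
    exact hmono (Finset.le_sup (f := n) hb) (hn b hb)
  let A' : Set (X × K → ℝ) := {h | h ∈ A ∧ ∃ b ∈ Bω, (b : X × K → ℝ) = h}
  obtain ⟨s, hs, hsT⟩ := hmain Bω A' hBω (fun h hh => hh.1) (by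
    intro P hP S' ε hε
    have h1 : ∀ p : Finset C(X × K, ℝ) × ℕ, ∃ n, p ∈ P → (p.1 : Set C(X × K, ℝ)) ⊆ (Bs n).1 := by
      intro p
      by_cases hp : p ∈ P
      · obtain ⟨n, hn⟩ := hfinsub p.1 (hP p hp)
        exact ⟨n, fun _ => hn⟩
      · exact ⟨0, fun h => absurd h hp⟩
    choose n hn using h1
    let N := P.sup n
    have h2 : ∀ p ∈ P, (p.1 : Set C(X × K, ℝ)) ⊆ (Bs N).1 := fun p hp =>
      (hn p hp).trans (hmono (Finset.le_sup (f := n) hp))
    have h3 : ∀ᶠ k in atTop, ∀ p ∈ P, ∀ x ∈ S', T p (S (Bs N) k) x < ε := by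
      rw [Filter.eventually_all_finset]
      intro p hp
      rw [Filter.eventually_all_finset]
      intro x _
      exact (hST (Bs N) p (h2 p hp) x).eventually_lt_const hε
    obtain ⟨k, hk⟩ := h3.exists
    refine ⟨S (Bs N) k, ⟨hSA _ _, S (Bs N) k, ?_, rfl⟩, hk⟩
    refine mem_iUnion.mpr ⟨N + 1, ?_⟩
    rw [hBs1]
    exact Or.inr (mem_range_self k))
  refine ⟨s, fun n => (hs n).1, ?_⟩
  -- convergence
  rw [tendsto_nhds]
  intro U hUo hfU
  by_contra hcon
  have h2 : ∃ᶠ n in atTop, s n ∉ U := by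
    intro h
    apply hcon
    filter_upwards [h] with n hn
    simpa using hn
  obtain ⟨φ, hφ, hφU⟩ := extraction_of_frequently_atTop h2
  obtain ⟨g, hgc, hg⟩ := hA.2 (s ∘ φ) (fun n => (hs _).1)
  have hgU : g ∈ Uᶜ :=
    hUo.isClosed_compl.mem_of_mapClusterPt hg (Eventually.of_forall fun n => hφU n)
  apply hgU
  suffices hgf : g = f by rw [hgf]; exact hfU
  ext ⟨x, t₁⟩
  obtain ⟨e, he⟩ := hBω.exists_eq_range ⟨_, hfB⟩
  have heB : ∀ i, e i ∈ Bω := by
    intro i; rw [he]; exact mem_range_self i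
  let Fn : ℕ → Finset C(X × K, ℝ) := fun n => (Finset.range (n + 1)).image e
  have hFn : ∀ n, ((Fn n : Finset _) : Set C(X × K, ℝ)) ⊆ Bω := by
    intro n b hb
    have hb' : b ∈ (Finset.range (n + 1)).image e := hb
    obtain ⟨i, _, rfl⟩ := Finset.mem_image.mp hb'
    exact heB i
  choose τ hτ1 c hc0 hc using fun n => hTx (Fn n, n) x t₁
  have hτg : ∀ n, g (x, τ n) = f (x, τ n) := by
    intro n
    have h3 : Tendsto (fun k => T (Fn n, n) (s k) x) atTop (𝓝 0) := hsT (Fn n, n) (hFn n) x
    have h4 : Tendsto (fun k => c n * min |s k (x, τ n) - f (x, τ n)| 1) atTop (𝓝 0) := by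
      refine squeeze_zero (fun k => mul_nonneg (hc0 n).le (le_min (abs_nonneg _) zero_le_one))
        (fun k => hc n (s k)) h3
    have h5 : Tendsto (fun k => c n * min |(s ∘ φ) k (x, τ n) - f (x, τ n)| 1) atTop (𝓝 0) :=
      h4.comp hφ.tendsto_atTop
    have hcont : Continuous (fun h : X × K → ℝ => c n * min |h (x, τ n) - f (x, τ n)| 1) :=
      continuous_const.mul ((((continuous_apply (x, τ n)).sub continuous_const).abs).min
        continuous_const)
    have h6 : c n * min |g (x, τ n) - f (x, τ n)| 1 = 0 :=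
      eq_of_mapClusterPt_of_tendsto (hg.tendsto_comp hcont.continuousAt) h5
    rcases mul_eq_zero.mp h6 with h7 | h7
    · exact absurd h7 (hc0 n).ne'
    · have h8 : |g (x, τ n) - f (x, τ n)| ≤ 0 := by
        rcases min_choice |g (x, τ n) - f (x, τ n)| 1 with h9 | h9
        · rw [h9] at h7; exact h7.le
        · rw [h9] at h7; exact absurd h7 one_ne_zero
      have h10 := abs_nonpos_iff.mp h8
      linarith
  obtain ⟨ts, _, hts⟩ := isCompact_univ (X := K) (f := map τ atTop) (by simp)
  have hts : MapClusterPt ts atTop τ := hts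
  have hbts : ∀ b ∈ Bω, b (x, ts) = b (x, t₁) := by
    intro b hb
    rw [he] at hb
    obtain ⟨i, rfl⟩ := hb
    have hcb : Continuous (fun t => e i (x, t)) := (e i).continuous.comp (by fun_prop)
    refine eq_of_mapClusterPt_of_tendsto (hts.tendsto_comp hcb.continuousAt) ?_
    rw [tendsto_iff_dist_tendsto_zero]
    refine squeeze_zero' (Eventually.of_forall fun n => dist_nonneg) ?_
      (tendsto_one_div_add_atTop_nhds_zero_nat (𝕜 := ℝ))
    filter_upwards [eventually_ge_atTop i] with n hn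
    have h3 : e i ∈ Fn n :=
      Finset.mem_image_of_mem _ (Finset.mem_range.mpr (Nat.lt_succ_of_le hn))
    rw [Real.dist_eq]
    exact (hτ1 n (e i) h3).le
  have hgts : g (x, ts) = f (x, ts) := by
    have hcl : IsClosed {t : K | g (x, t) = f (x, t)} :=
      isClosed_eq (hgc.comp (by fun_prop)) (hfc.comp (by fun_prop))
    exact hcl.mem_of_mapClusterPt hts (Eventually.of_forall hτg)
  have hg1 : g (x, ts) = g (x, t₁) := by
    have hcl : IsClosed {h : X × K → ℝ | h (x, ts) = h (x, t₁)} :=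
      isClosed_eq (continuous_apply _) (continuous_apply _)
    refine hcl.mem_of_mapClusterPt hg (Eventually.of_forall fun n => ?_)
    obtain ⟨_, b, hb, hbs⟩ := hs (φ n)
    show s (φ n) (x, ts) = s (φ n) (x, t₁)
    rw [← hbs]
    exact hbts b hb
  have hf1 : f (x, ts) = f (x, t₁) := hbts ⟨f, hfc⟩ hfB
  rw [← hg1, hgts, hf1]

lemma Ang.prod [CompactSpace K] (hX : Ang X) : Ang (X × K) :=
  fun _ hA _ hf => exists_seq_tendsto hX hA hf

end Product

/-- **Arhangel'skii's question (1998) on Grothendieck spaces, positive answer.**  If `X` is a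
(Tychonoff) Grothendieck space, then `X × K` is a Grothendieck space for every compact
(Hausdorff) space `K`. -/
theorem result : ∀ (X : Type u) [TopologicalSpace X] [T35Space X], GrothendieckSpace X →
    ∀ (K : Type v) [TopologicalSpace K] [CompactSpace K] [T2Space K],
      GrothendieckSpace (X × K) := by
  intro X _ _ hX K _ _ _
  exact grothendieckSpace_of_ang (ang_of_grothendieckSpace hX).prod

end Pool.Agent.Results.MP_8a2df8_gt.ProductCompact
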