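import Mathlib

namespace Pool.Agent.Results.MP_8a2df8_gt.WeaklyProductCompact

open Topology Filter Set

universe u v

set_option linter.unusedSectionVars false
set_option linter.unusedVariables false

/-- The space `C_p(X)`: continuous real functions on `X` with the topology of pointwise
convergence, i.e. the subspace topology inherited from the product `X → ℝ`. -/
abbrev Cp (X : Type u) [TopologicalSpace X] : Type u := {f : X → ℝ // Continuous f}

/-- `A` is countably compact in `Z`: each infinite subset of `A` has an accumulation point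
in `Z`. -/
def CountablyCompactIn {Z : Type u} [TopologicalSpace Z] (A : Set Z) : Prop :=
  ∀ B : Set Z, B ⊆ A → B.Infinite → ∃ z : Z, AccPt z (𝓟 B)

/-- `Z` is a g-space: every subset that is countably compact in `Z` has compact closure. -/
def GSpace (Z : Type u) [TopologicalSpace Z] : Prop :=
  ∀ A : Set Z, CountablyCompactIn A → IsCompact (closure A)

/-- `X` is a weakly Grothendieck space: `C_p(X)` is a g-space. -/
def WeaklyGrothendieckSpace (X : Type u) [TopologicalSpace X] : Prop :=
  GSpace (Cp X)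

/-! ### Working notions in the full product -/

/-- A set of continuous functions on `Z` such that each sequence of its members has a continuous
cluster point for pointwise convergence. -/
def RCC {Z : Type u} [TopologicalSpace Z] (A : Set (Z → ℝ)) : Prop :=
  (∀ f ∈ A, Continuous f) ∧
    ∀ s : ℕ → (Z → ℝ), (∀ n, s n ∈ A) → ∃ a : Z → ℝ, Continuous a ∧ MapClusterPt a atTop s

/-- Working form of the weak Grothendieck property. -/
def WG (Z : Type u) [TopologicalSpace Z] : Prop :=
  ∀ A : Set (Z → ℝ), RCC A → ∀ f ∈ closure A, Continuous f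

lemma eq_of_mapClusterPt_of_tendsto {Z : Type*} [TopologicalSpace Z] [T2Space Z] {ι : Type*}
    {l : Filter ι} {s : ι → Z} {a f : Z} (ha : MapClusterPt a l s) (hs : Tendsto s l (𝓝 f)) :
    a = f :=
  have : (𝓝 a ⊓ 𝓝 f).NeBot := ClusterPt.mono ha hs
  eq_of_nhds_neBot this

lemma exists_mapClusterPt_of_countablyCompactIn {Z : Type u} [TopologicalSpace Z] [T1Space Z]
    {A : Set Z} (hA : CountablyCompactIn A) (s : ℕ → Z) (hs : ∀ n, s n ∈ A) :
    ∃ z, MapClusterPt z atTop s := by
  by_cases hr : (range s).Infinite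
  · obtain ⟨z, hz⟩ := hA (range s) (by rintro _ ⟨n, rfl⟩; exact hs n) hr
    refine ⟨z, ?_⟩
    rw [mapClusterPt_iff_frequently]
    intro U hU
    by_contra hcon
    rw [not_frequently, eventually_atTop] at hcon
    obtain ⟨N, hN⟩ := hcon
    have hfin : ((s '' (Set.Iio N)) \ {z}).Finite := ((Set.finite_Iio N).image s).subset Set.sdiff_subset
    have hV : U ∩ ((s '' (Set.Iio N)) \ {z})ᶜ ∈ 𝓝 z := by
      refine inter_mem hU ?_
      refine hfin.isClosed.isOpen_compl.mem_nhds ?_
      simp
    rw [accPt_iff_nhds] at hz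
    obtain ⟨y, ⟨⟨hyU, hy2⟩, ⟨n, rfl⟩⟩, hyz⟩ := hz _ hV
    by_cases hn : N ≤ n
    · exact hN n hn hyU
    · exact hy2 ⟨⟨n, by simpa using hn, rfl⟩, by simpa using hyz⟩
  · rw [Set.not_infinite] at hr
    have : Finite (range s) := hr
    obtain ⟨y, hy⟩ := Finite.exists_infinite_fiber (rangeFactorization s)
    refine ⟨y, ?_⟩
    rw [mapClusterPt_iff_frequently]
    intro U hU
    have h1 : (rangeFactorization s ⁻¹' {y}).Infinite := Set.infinite_coe_iff.mp hy
    rw [Nat.frequently_atTop_iff_infinite]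
    refine h1.mono ?_
    intro n hn
    have : s n = y := by
      have := congrArg Subtype.val (show rangeFactorization s n = y from hn)
      simpa using this
    show s n ∈ U
    rw [this]
    exact mem_of_mem_nhds hU

lemma countablyCompactIn_of_mapClusterPt {Z : Type u} [TopologicalSpace Z]
    {A : Set Z} (hA : ∀ s : ℕ → Z, (∀ n, s n ∈ A) → ∃ z, MapClusterPt z atTop s) :
    CountablyCompactIn A := by
  intro B hBA hB
  obtain ⟨z, hz⟩ := hA (fun n => (hB.natEmbedding B n : Z)) (fun n => hBA (hB.natEmbedding B n).2)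
  refine ⟨z, ?_⟩
  rw [accPt_iff_nhds]
  intro U hU
  rw [mapClusterPt_iff_frequently] at hz
  have h1 := hz U hU
  rw [Nat.frequently_atTop_iff_infinite] at h1
  by_contra hcon
  push Not at hcon
  have h2 : {n | ((hB.natEmbedding B n : B) : Z) ∈ U}.Subsingleton := by
    intro n hn m hm
    have e1 := hcon _ ⟨hn, (hB.natEmbedding B n).2⟩
    have e2 := hcon _ ⟨hm, (hB.natEmbedding B m).2⟩
    exact (hB.natEmbedding B).injective (Subtype.ext (e1.trans e2.symm))
  exact h1 h2.finite

lemma wg_of_weaklyGrothendieckSpace {Z : Type u} [TopologicalSpace Z]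
    (hZ : WeaklyGrothendieckSpace Z) : WG Z := by
  intro A hA f hf
  let A' : Set (Cp Z) := {g | g.1 ∈ A}
  have hcc : CountablyCompactIn A' := by
    apply countablyCompactIn_of_mapClusterPt
    intro s hs
    obtain ⟨a, hac, ha⟩ := hA.2 (fun n => (s n).1) (fun n => hs n)
    refine ⟨⟨a, hac⟩, ?_⟩
    have hemb : IsInducing (fun g : Cp Z => (g.1 : Z → ℝ)) := IsInducing.subtypeVal
    rw [mapClusterPt_iff_frequently] at ha ⊢
    intro U hU
    rw [hemb.nhds_eq_comap, mem_comap] at hU
    obtain ⟨V, hV, hVU⟩ := hU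
    exact (ha V hV).mono (fun n hn => hVU hn)
  have hcomp := hZ A' hcc
  have himg : IsCompact ((fun g : Cp Z => (g.1 : Z → ℝ)) '' closure A') :=
    hcomp.image continuous_subtype_val
  have hsub : A ⊆ (fun g : Cp Z => (g.1 : Z → ℝ)) '' closure A' := by
    intro g hg
    exact ⟨⟨g, hA.1 g hg⟩, subset_closure hg, rfl⟩
  obtain ⟨g, _, hgf⟩ := closure_minimal hsub himg.isClosed hf
  rw [← hgf]
  exact g.2

lemma weaklyGrothendieckSpace_of_wg {Z : Type u} [TopologicalSpace Z] (hZ : WG Z) :
    WeaklyGrothendieckSpace Z := by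
  intro A hA
  let ι : Cp Z → (Z → ℝ) := fun g => g.1
  have hind : IsInducing ι := IsInducing.subtypeVal
  have hcontι : Continuous ι := hind.continuous
  have hseq := exists_mapClusterPt_of_countablyCompactIn hA
  -- lifting sequences
  have hlift : ∀ s : ℕ → (Z → ℝ), (∀ n, s n ∈ ι '' A) → ∃ a : Cp Z, MapClusterPt (ι a) atTop s := by
    intro s hs
    choose g hgA hgs using hs
    obtain ⟨a, ha⟩ := hseq g hgA
    refine ⟨a, ?_⟩
    have := ha.tendsto_comp hcontι.continuousAt
    have h2 : ι ∘ g = s := funext hgs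
    rwa [h2] at this
  have hRCC : RCC (ι '' A) := by
    refine ⟨?_, ?_⟩
    · rintro _ ⟨g, _, rfl⟩
      exact g.2
    · intro s hs
      obtain ⟨a, ha⟩ := hlift s hs
      exact ⟨ι a, a.2, ha⟩
  have hbdd : ∀ z : Z, ∃ M : ℝ, ∀ h ∈ ι '' A, |h z| ≤ M := by
    intro z
    by_contra hcon
    push Not at hcon
    choose h hA' hh using fun n : ℕ => hcon n
    obtain ⟨a, ha⟩ := hlift h hA'
    have h1 : MapClusterPt (ι a z) atTop (fun n => h n z) :=
      ha.tendsto_comp (continuous_apply z).continuousAt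
    rw [mapClusterPt_iff_frequently] at h1
    have h2 := h1 (Metric.ball (ι a z) 1) (Metric.ball_mem_nhds _ one_pos)
    obtain ⟨N, hN⟩ := exists_nat_gt (|ι a z| + 1)
    rw [frequently_atTop] at h2
    obtain ⟨n, hn, hn2⟩ := h2 N
    rw [Metric.mem_ball, Real.dist_eq] at hn2
    have h3 := hh n
    have h4 : (N : ℝ) ≤ n := by exact_mod_cast hn
    have h5 : |h n z| ≤ |h n z - ι a z| + |ι a z| := by
      have := abs_add_le (h n z - ι a z) (ι a z)
      simpa using this
    linarith
  choose M hM using hbdd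
  have hcompact : IsCompact (closure (ι '' A)) := by
    have hK : IsCompact (Set.pi univ (fun z : Z => Set.Icc (-(M z)) (M z))) :=
      isCompact_univ_pi (fun z => isCompact_Icc)
    refine hK.of_isClosed_subset isClosed_closure ?_
    refine closure_minimal ?_ hK.isClosed
    intro h hh z _
    exact abs_le.mp (hM z h hh)
  have hrange : closure (ι '' A) ⊆ range ι := by
    intro f hf
    exact ⟨⟨f, hZ (ι '' A) hRCC f hf⟩, rfl⟩
  rw [hind.closure_eq_preimage_closure_image]
  exact hind.isCompact_preimage' hcompact hrange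

/-! ### Push-forward along continuous functionals -/

lemma RCC.image {Z : Type u} {X : Type v} [TopologicalSpace Z] [TopologicalSpace X]
    {A : Set (Z → ℝ)} (hA : RCC A) {Φ : (Z → ℝ) → (X → ℝ)} (hΦ : Continuous Φ)
    (hΦ' : ∀ h : Z → ℝ, Continuous h → Continuous (Φ h)) : RCC (Φ '' A) := by
  refine ⟨?_, ?_⟩
  · rintro _ ⟨g, hg, rfl⟩
    exact hΦ' g (hA.1 g hg)
  · intro s hs
    choose g hgA hgs using hs
    obtain ⟨a, hac, ha⟩ := hA.2 g hgA
    refine ⟨Φ a, hΦ' a hac, ?_⟩
    have := ha.tendsto_comp hΦ.continuousAt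
    have h2 : Φ ∘ g = s := funext hgs
    rwa [h2] at this

/-- The basic use of the weak Grothendieck property: a continuous functional
`Φ : ℝ^Z → ℝ^X` that preserves continuity of functions. -/
lemma WG.push {Z : Type u} {X : Type v} [TopologicalSpace Z] [TopologicalSpace X] (hX : WG X)
    {A : Set (Z → ℝ)} (hA : RCC A) {f : Z → ℝ} (hf : f ∈ closure A)
    {Φ : (Z → ℝ) → (X → ℝ)} (hΦ : Continuous Φ)
    (hΦ' : ∀ h : Z → ℝ, Continuous h → Continuous (Φ h)) :
    Continuous (Φ f) :=
  hX _ (hA.image hΦ hΦ') _ ((image_closure_subset_closure_image hΦ) (mem_image_of_mem Φ hf))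

/-! ### Grothendieck's theorem for compact spaces -/

lemma continuous_of_mem_closure_of_compact {K : Type v} [TopologicalSpace K] [CompactSpace K]
    {A : Set (K → ℝ)} (hA : RCC A) {f : K → ℝ} (hf : f ∈ closure A) : Continuous f := by
  rw [continuous_iff_continuousAt]
  intro t₀
  by_contra hcon
  rw [Metric.continuousAt_iff'] at hcon
  push Not at hcon
  obtain ⟨ε, hε, hfreq⟩ := hcon
  -- approximation on finite sets
  have happrox : ∀ (F : Finset K) (δ : ℝ), 0 < δ → ∃ b ∈ A, ∀ t ∈ F, |b t - f t| < δ := by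
    intro F δ hδ
    have hU : {h : K → ℝ | ∀ t ∈ F, |h t - f t| < δ} ∈ 𝓝 f := by
      have : {h : K → ℝ | ∀ t ∈ F, |h t - f t| < δ} =
          ⋂ t ∈ F, {h : K → ℝ | |h t - f t| < δ} := by
        ext h; simp
      rw [this, Filter.biInter_finset_mem]
      intro t _
      have hc : Continuous (fun h : K → ℝ => |h t - f t|) :=
        ((continuous_apply t).sub continuous_const).abs
      exact (isOpen_lt hc continuous_const).mem_nhds (by simpa using hδ)
    obtain ⟨b, hb1, hb2⟩ := mem_closure_iff_nhds.mp hf _ hU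
    exact ⟨b, hb2, hb1⟩
  let P : ℕ × (K → ℝ) × K → Prop := fun p => p.2.1 ∈ A ∧ ε ≤ |f p.2.2 - f t₀| ∧
    |p.2.1 t₀ - f t₀| < 1 / ((p.1 : ℝ) + 1) ∧ |p.2.1 p.2.2 - p.2.1 t₀| < 1 / ((p.1 : ℝ) + 1)
  let r : ℕ × (K → ℝ) × K → ℕ × (K → ℝ) × K → Prop := fun p q => p.1 < q.1 ∧
    |q.2.1 p.2.2 - f p.2.2| < 1 / ((q.1 : ℝ) + 1) ∧
    |p.2.1 q.2.2 - p.2.1 t₀| < 1 / ((q.1 : ℝ) + 1)
  obtain ⟨p, hp, hr⟩ := exists_seq_of_forall_finset_exists P r (by
    classical
    intro S hS
    obtain ⟨m, hm⟩ : ∃ m : ℕ, ∀ x ∈ S, x.1 < m := by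
      refine ⟨S.sup (fun x => x.1) + 1, fun x hx => ?_⟩
      exact Nat.lt_succ_of_le (Finset.le_sup (f := fun x : ℕ × (K → ℝ) × K => x.1) hx)
    have hδ : (0 : ℝ) < 1 / ((m : ℝ) + 1) := by positivity
    obtain ⟨b, hbA, hb⟩ := happrox (insert t₀ (S.image (fun x => x.2.2))) _ hδ
    have hbc : Continuous b := hA.1 b hbA
    have hnear : ∀ᶠ t in 𝓝 t₀, |b t - b t₀| < 1 / ((m : ℝ) + 1) ∧
        ∀ x ∈ S, |x.2.1 t - x.2.1 t₀| < 1 / ((m : ℝ) + 1) := by
      refine Filter.Eventually.and ?_ ?_
      · have := (hbc.continuousAt (x := t₀))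
        rw [Metric.continuousAt_iff'] at this
        simpa [Real.dist_eq] using this _ hδ
      · rw [Filter.eventually_all_finset]
        intro x hx
        have := ((hA.1 _ (hS x hx).1).continuousAt (x := t₀))
        rw [Metric.continuousAt_iff'] at this
        simpa [Real.dist_eq] using this _ hδ
    obtain ⟨t, ht1, ht2⟩ := (hfreq.and_eventually hnear).exists
    refine ⟨(m, b, t), ⟨hbA, by simpa [Real.dist_eq] using ht1, ?_, ht2.1⟩, ?_⟩
    · exact hb t₀ (by simp)
    · intro x hx
      exact ⟨hm x hx, hb x.2.2 (by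
        refine Finset.mem_insert_of_mem ?_
        exact Finset.mem_image_of_mem _ hx), ht2.2 x hx⟩)
  -- the index grows
  have hidx : ∀ n, n ≤ (p n).1 := by
    intro n
    induction n with
    | zero => exact Nat.zero_le _
    | succ k ih =>
      exact Nat.succ_le_of_lt (lt_of_le_of_lt ih (hr k (k + 1) (Nat.lt_succ_self k)).1)
  have hsmall : ∀ n, 1 / (((p n).1 : ℝ) + 1) ≤ 1 / ((n : ℝ) + 1) := by
    intro n
    apply one_div_le_one_div_of_le (by positivity)
    have : (n : ℝ) ≤ (p n).1 := by exact_mod_cast hidx n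
    linarith
  have hlim0 : Tendsto (fun n : ℕ => 1 / ((n : ℝ) + 1)) atTop (𝓝 0) :=
    tendsto_one_div_add_atTop_nhds_zero_nat
  obtain ⟨a, hac, ha⟩ := hA.2 (fun n => (p n).2.1) (fun n => (hp n).1)
  obtain ⟨ts, hts⟩ : ∃ ts : K, MapClusterPt ts atTop (fun n => (p n).2.2) := by
    obtain ⟨x, _, hx⟩ := isCompact_univ (X := K) (f := map (fun n => (p n).2.2) atTop)
      (by simp)
    exact ⟨x, hx⟩
  -- evaluate
  have hev : ∀ t : K, MapClusterPt (a t) atTop (fun n => (p n).2.1 t) := fun t =>
    ha.tendsto_comp (continuous_apply t).continuousAt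
  have hconv : ∀ (g : ℕ → ℝ) (c : ℝ) (N : ℕ), (∀ n, N < n → |g n - c| ≤ 1 / ((n : ℝ) + 1)) →
      Tendsto g atTop (𝓝 c) := by
    intro g c N hg
    rw [tendsto_iff_dist_tendsto_zero]
    refine squeeze_zero' (Eventually.of_forall fun n => dist_nonneg) ?_ hlim0
    filter_upwards [eventually_gt_atTop N] with n hn
    rw [Real.dist_eq]
    exact hg n hn
  have ha0 : a t₀ = f t₀ := by
    refine eq_of_mapClusterPt_of_tendsto (hev t₀) (hconv _ _ 0 ?_)
    intro n _
    exact ((hp n).2.2.1).le.trans (hsmall n)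
  have hai : ∀ i, a (p i).2.2 = f (p i).2.2 := by
    intro i
    refine eq_of_mapClusterPt_of_tendsto (hev _) (hconv _ _ i ?_)
    intro n hn
    exact ((hr i n hn).2.1).le.trans (hsmall n)
  have hts' : ∀ i, (p i).2.1 ts = (p i).2.1 t₀ := by
    intro i
    have hc : Continuous (p i).2.1 := hA.1 _ (hp i).1
    refine eq_of_mapClusterPt_of_tendsto (hts.tendsto_comp hc.continuousAt) (hconv _ _ i ?_)
    intro n hn
    exact ((hr i n hn).2.2).le.trans (hsmall n)
  have hats : a ts = a t₀ := by
    have hcl : IsClosed {h : K → ℝ | h ts = h t₀} :=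
      isClosed_eq (continuous_apply ts) (continuous_apply t₀)
    exact hcl.mem_of_mapClusterPt ha (Eventually.of_forall hts')
  have hfar : ε ≤ |a ts - f t₀| := by
    have hcl : IsClosed {t : K | ε ≤ |a t - f t₀|} :=
      isClosed_le continuous_const ((hac.sub continuous_const).abs)
    refine hcl.mem_of_mapClusterPt hts (Eventually.of_forall ?_)
    intro n
    show ε ≤ |a (p n).2.2 - f t₀|
    rw [hai n]
    exact (hp n).2.1
  rw [hats, ha0] at hfar
  simp at hfar
  linarith

/-! ### The functional for countably many slices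

`A` is relatively countably compact in `C_p(X × K)` and `f` a point of its closure in the full
product; `f` is separately continuous.  For a sequence `t` in `K` and `x₀` in `X` the functional
`h ↦ (x ↦ ∑ₙ min (uₙ h x) (uₙ f x))`, where `uₙ h` are the increments of
`maxᵢ |h (x, tᵢ) - h (x₀, tᵢ)|`, is pointwise continuous in `h` (tails are bounded by those of
`f`) and preserves continuity (tails are bounded by those of `h`).  At `h = f` it is
`supᵢ |f (x, tᵢ) - f (x₀, tᵢ)|`. -/

section Product

variable {X : Type u} {K : Type v}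

/-- `mx t x₀ h n x = max_{i < n} |h (x, t i) - h (x₀, t i)|` (and `0` for `n = 0`). -/
noncomputable def mx (t : ℕ → K) (x₀ : X) (h : X × K → ℝ) : ℕ → X → ℝ
  | 0, _ => 0
  | n + 1, x => max (mx t x₀ h n x) |h (x, t n) - h (x₀, t n)|

/-- The increments of `mx`. -/
noncomputable def ux (t : ℕ → K) (x₀ : X) (h : X × K → ℝ) (n : ℕ) (x : X) : ℝ :=
  mx t x₀ h (n + 1) x - mx t x₀ h n x

lemma mx_nonneg (t : ℕ → K) (x₀ : X) (h : X × K → ℝ) (n : ℕ) (x : X) : 0 ≤ mx t x₀ h n x := by
  induction n with
  | zero => exact le_rfl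
  | succ n ih => exact ih.trans (le_max_left _ _)

lemma ux_nonneg (t : ℕ → K) (x₀ : X) (h : X × K → ℝ) (n : ℕ) (x : X) : 0 ≤ ux t x₀ h n x :=
  sub_nonneg.2 (le_max_left _ _)

lemma mx_mono (t : ℕ → K) (x₀ : X) (h : X × K → ℝ) (x : X) :
    Monotone fun n => mx t x₀ h n x :=
  monotone_nat_of_le_succ fun _ => le_max_left _ _

lemma sum_ux (t : ℕ → K) (x₀ : X) (h : X × K → ℝ) (n : ℕ) (x : X) :
    ∑ i ∈ Finset.range n, ux t x₀ h i x = mx t x₀ h n x := by
  have := Finset.sum_range_sub (fun i => mx t x₀ h i x) n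
  simpa [ux, mx] using this

lemma le_mx (t : ℕ → K) (x₀ : X) (h : X × K → ℝ) (n : ℕ) (x : X) :
    |h (x, t n) - h (x₀, t n)| ≤ mx t x₀ h (n + 1) x :=
  le_max_right _ _

lemma mx_self (t : ℕ → K) (x₀ : X) (h : X × K → ℝ) (n : ℕ) : mx t x₀ h n x₀ = 0 := by
  induction n with
  | zero => rfl
  | succ n ih => simp [mx, ih]

lemma mx_le (t : ℕ → K) (x₀ : X) (h : X × K → ℝ) (x : X) {M : ℝ} (hM0 : 0 ≤ M)
    (hM : ∀ i, |h (x, t i) - h (x₀, t i)| ≤ M) (n : ℕ) : mx t x₀ h n x ≤ M := by
  induction n with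
  | zero => exact hM0
  | succ n ih => exact max_le ih (hM n)

lemma mx_sub_le (t : ℕ → K) (x₀ : X) (h : X × K → ℝ) (x y : X) {δ : ℝ} (hδ : 0 ≤ δ)
    (hM : ∀ i, |h (x, t i) - h (y, t i)| ≤ δ) (n : ℕ) :
    mx t x₀ h n x ≤ mx t x₀ h n y + δ := by
  induction n with
  | zero => simpa [mx] using hδ
  | succ n ih =>
    refine max_le (ih.trans ?_) ?_
    · have := le_max_left (mx t x₀ h n y) |h (y, t n) - h (x₀, t n)|
      show _ ≤ max (mx t x₀ h n y) |h (y, t n) - h (x₀, t n)| + δ
      linarith
    · have h1 := le_max_right (mx t x₀ h n y) |h (y, t n) - h (x₀, t n)|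
      show _ ≤ max (mx t x₀ h n y) |h (y, t n) - h (x₀, t n)| + δ
      have h2 : |h (x, t n) - h (x₀, t n)| ≤ |h (x, t n) - h (y, t n)| +
          |h (y, t n) - h (x₀, t n)| := abs_sub_le _ _ _
      have h3 := hM n
      linarith

lemma continuous_mx_left (t : ℕ → K) (x₀ x : X) (n : ℕ) :
    Continuous fun h : X × K → ℝ => mx t x₀ h n x := by
  induction n with
  | zero => exact continuous_const
  | succ n ih =>
    have h1 : Continuous fun h : X × K → ℝ => |h (x, t n) - h (x₀, t n)| :=
      ((continuous_apply (x, t n)).sub (continuous_apply (x₀, t n))).abs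
    exact ih.max h1

variable [TopologicalSpace X]

lemma continuous_mx (t : ℕ → K) (x₀ : X) (h : X × K → ℝ)
    (hh : ∀ k, Continuous fun x => h (x, k)) (n : ℕ) :
    Continuous fun x : X => mx t x₀ h n x := by
  induction n with
  | zero => exact continuous_const
  | succ n ih => exact ih.max ((hh (t n)).sub continuous_const).abs

/-- The functional. -/
noncomputable def bb (t : ℕ → K) (x₀ : X) (f h : X × K → ℝ) (x : X) : ℝ :=
  ∑' n, min (ux t x₀ h n x) (ux t x₀ f n x)

variable [TopologicalSpace K] [CompactSpace K]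

lemma exists_bound {g : K → ℝ} (hg : Continuous g) : ∃ M, 0 ≤ M ∧ ∀ k, |g k| ≤ M := by
  obtain ⟨M, hM⟩ := (isCompact_range hg).isBounded.exists_norm_le
  refine ⟨max M 0, le_max_right _ _, fun k => ?_⟩
  exact (hM _ ⟨k, rfl⟩).trans (le_max_left _ _)

lemma summable_ux (t : ℕ → K) (x₀ : X) (h : X × K → ℝ)
    (hh : ∀ x, Continuous fun k => h (x, k)) (x : X) :
    Summable fun n => ux t x₀ h n x := by
  obtain ⟨M, hM0, hM⟩ := exists_bound ((hh x).sub (hh x₀))
  refine summable_of_sum_range_le (c := M) (fun n => ux_nonneg _ _ _ _ _) fun n => ?_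
  rw [sum_ux]
  exact mx_le t x₀ h x hM0 (fun i => hM _) n

lemma summable_min (t : ℕ → K) (x₀ : X) (f h : X × K → ℝ)
    (hf : ∀ x, Continuous fun k => f (x, k)) (x : X) :
    Summable fun n => min (ux t x₀ h n x) (ux t x₀ f n x) :=
  Summable.of_nonneg_of_le (fun n => le_min (ux_nonneg _ _ _ _ _) (ux_nonneg _ _ _ _ _))
    (fun n => min_le_right _ _) (summable_ux t x₀ f hf x)

lemma continuous_bb_left (t : ℕ → K) (x₀ : X) (f : X × K → ℝ)
    (hf : ∀ x, Continuous fun k => f (x, k)) :
    Continuous fun h : X × K → ℝ => bb t x₀ f h := by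
  refine continuous_pi fun x => ?_
  refine continuous_tsum (u := fun n => ux t x₀ f n x) (fun n => ?_)
    (summable_ux t x₀ f hf x) fun n h => ?_
  · exact ((continuous_mx_left t x₀ x (n + 1)).sub (continuous_mx_left t x₀ x n)).min
      continuous_const
  · rw [Real.norm_of_nonneg (le_min (ux_nonneg _ _ _ _ _) (ux_nonneg _ _ _ _ _))]
    exact min_le_right _ _

/-- Uniformity in the compact variable. -/
lemma eventually_unif {h : X × K → ℝ} (hh : Continuous h) (x₁ : X) {δ : ℝ} (hδ : 0 < δ) :
    ∀ᶠ x in 𝓝 x₁, ∀ k, |h (x, k) - h (x₁, k)| < δ := by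
  have hopen : IsOpen {p : X × K | |h p - h (x₁, p.2)| < δ} :=
    isOpen_lt ((hh.sub (hh.comp (by fun_prop))).abs) continuous_const
  have hsub : ({x₁} : Set X) ×ˢ (univ : Set K) ⊆ {p : X × K | |h p - h (x₁, p.2)| < δ} := by
    rintro ⟨x, k⟩ ⟨hx, _⟩
    obtain rfl : x = x₁ := hx
    simpa using hδ
  obtain ⟨U, V, hU, _, hxU, hV, hUV⟩ :=
    generalized_tube_lemma isCompact_singleton isCompact_univ hopen hsub
  filter_upwards [hU.mem_nhds (hxU rfl)] with x hx k
  exact hUV ⟨hx, hV (mem_univ k)⟩

lemma continuous_bb (t : ℕ → K) (x₀ : X) (f h : X × K → ℝ)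
    (hf : ∀ x, Continuous fun k => f (x, k)) (hf' : ∀ k, Continuous fun x => f (x, k))
    (hh : Continuous h) : Continuous (bb t x₀ f h) := by
  have hh1 : ∀ x, Continuous fun k => h (x, k) := fun x => hh.comp (by fun_prop)
  have hh2 : ∀ k, Continuous fun x => h (x, k) := fun k => hh.comp (by fun_prop)
  refine continuous_of_locally_uniform_approx_of_continuousAt fun x₁ v hv => ?_
  obtain ⟨ε, hε, hεv⟩ := Metric.mem_uniformity_dist.mp hv
  -- choose `N`
  obtain ⟨N, hN⟩ : ∃ N, ∀ n, mx t x₀ h n x₁ ≤ mx t x₀ h N x₁ + ε / 8 := by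
    have hs := (summable_ux t x₀ h hh1 x₁).hasSum.tendsto_sum_nat
    have hle : ∀ n, mx t x₀ h n x₁ ≤ ∑' n, ux t x₀ h n x₁ := by
      intro n
      rw [← sum_ux]
      exact (summable_ux t x₀ h hh1 x₁).sum_le_tsum _ (fun i _ => ux_nonneg _ _ _ _ _)
    have hev := hs.eventually (lt_mem_nhds (show ∑' n, ux t x₀ h n x₁ - ε / 8 <
      ∑' n, ux t x₀ h n x₁ by linarith))
    obtain ⟨N, hN⟩ := hev.exists
    refine ⟨N, fun n => ?_⟩
    rw [sum_ux] at hN
    have := hle n
    linarith
  refine ⟨_, eventually_unif hh x₁ (show 0 < ε / 8 by positivity),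
    fun x => ∑ n ∈ Finset.range N, min (ux t x₀ h n x) (ux t x₀ f n x), ?_, ?_⟩
  · refine Continuous.continuousAt (continuous_finsetSum _ fun n _ => ?_)
    exact ((continuous_mx t x₀ h hh2 (n + 1)).sub (continuous_mx t x₀ h hh2 n)).min
      ((continuous_mx t x₀ f hf' (n + 1)).sub (continuous_mx t x₀ f hf' n))
  · intro y hy
    apply hεv
    rw [Real.dist_eq]
    have hy1 : ∀ k, |h (y, k) - h (x₁, k)| ≤ ε / 8 := fun k => (hy k).le
    have hy2 : ∀ k, |h (x₁, k) - h (y, k)| ≤ ε / 8 := fun k => by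
      rw [abs_sub_comm]; exact hy1 k
    have hlim := (summable_min t x₀ f h hf y).hasSum.tendsto_sum_nat
    have hb : ∀ᶠ n in atTop, |∑ i ∈ Finset.range n, min (ux t x₀ h i y) (ux t x₀ f i y) -
        ∑ i ∈ Finset.range N, min (ux t x₀ h i y) (ux t x₀ f i y)| ≤ ε / 2 := by
      filter_upwards [eventually_ge_atTop N] with n hn
      rw [← Finset.sum_range_add_sum_Ico _ hn, add_sub_cancel_left, abs_of_nonneg
        (Finset.sum_nonneg fun i _ => le_min (ux_nonneg _ _ _ _ _) (ux_nonneg _ _ _ _ _))]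
      have h1 : ∑ i ∈ Finset.Ico N n, min (ux t x₀ h i y) (ux t x₀ f i y) ≤
          ∑ i ∈ Finset.Ico N n, ux t x₀ h i y := Finset.sum_le_sum fun i _ => min_le_left _ _
      have h2 : ∑ i ∈ Finset.Ico N n, ux t x₀ h i y = mx t x₀ h n y - mx t x₀ h N y := by
        rw [← sum_ux, ← sum_ux, ← Finset.sum_range_add_sum_Ico _ hn, add_sub_cancel_left]
      have h3 := mx_sub_le t x₀ h y x₁ (by positivity) (fun i => hy1 (t i)) n
      have h4 := mx_sub_le t x₀ h x₁ y (by positivity) (fun i => hy2 (t i)) N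
      have h5 := hN n
      linarith
    have h6 : |bb t x₀ f h y - ∑ i ∈ Finset.range N, min (ux t x₀ h i y) (ux t x₀ f i y)|
        ≤ ε / 2 := le_of_tendsto ((hlim.sub_const _).abs) hb
    linarith

/-- Step 1: equicontinuity along countably many slices. -/
lemma eventually_seq (hX : WG X) {A : Set (X × K → ℝ)} (hA : RCC A) {f : X × K → ℝ}
    (hf : f ∈ closure A) (hf1 : ∀ x, Continuous fun k => f (x, k))
    (hf2 : ∀ k, Continuous fun x => f (x, k)) (t : ℕ → K) (x₀ : X) {ε : ℝ} (hε : 0 < ε) :
    ∀ᶠ x in 𝓝 x₀, ∀ i, |f (x, t i) - f (x₀, t i)| < ε := by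
  have hc : Continuous (bb t x₀ f f) :=
    hX.push hA hf (Φ := fun h => bb t x₀ f h) (continuous_bb_left t x₀ f hf1)
      (fun h hh => continuous_bb t x₀ f h hf1 hf2 hh)
  have h0 : bb t x₀ f f x₀ = 0 := by
    simp [bb, ux, mx_self]
  have hge : ∀ x i, |f (x, t i) - f (x₀, t i)| ≤ bb t x₀ f f x := by
    intro x i
    refine (le_mx t x₀ f i x).trans ?_
    rw [← sum_ux]
    simp only [bb, min_self]
    exact (summable_ux t x₀ f hf1 x).sum_le_tsum _ (fun i _ => ux_nonneg _ _ _ _ _)
  have hev : ∀ᶠ x in 𝓝 x₀, bb t x₀ f f x < ε := by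
    have := hc.continuousAt (x := x₀)
    exact this.eventually (gt_mem_nhds (by rw [h0]; exact hε))
  filter_upwards [hev] with x hx i
  exact (hge x i).trans_lt hx

/-- Step 2: joint continuity of the closure points. -/
lemma continuous_of_mem_closure (hX : WG X) {A : Set (X × K → ℝ)} (hA : RCC A)
    {f : X × K → ℝ} (hf : f ∈ closure A) : Continuous f := by
  classical
  have hf2 : ∀ k, Continuous fun x => f (x, k) := fun k =>
    hX.push hA hf (Φ := fun h x => h (x, k)) (continuous_pi fun x => continuous_apply (x, k))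
      (fun h hh => hh.comp (by fun_prop))
  have hf1 : ∀ x, Continuous fun k => f (x, k) := by
    intro x
    have hΦ : Continuous (fun (h : X × K → ℝ) (t : K) => h (x, t)) :=
      continuous_pi fun t => continuous_apply (x, t)
    have h1 := hA.image hΦ (fun h hh => hh.comp (by fun_prop))
    exact continuous_of_mem_closure_of_compact h1
      ((image_closure_subset_closure_image hΦ) (mem_image_of_mem _ hf))
  -- the finite suprema
  have key : ∀ (x₀ : X) {ε : ℝ}, 0 < ε → ∀ᶠ x in 𝓝 x₀, ∀ k, |f (x, k) - f (x₀, k)| < ε := by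
    intro x₀ ε hε
    let nD : Finset K → X → ℝ := fun D x => ((D.sup fun k => ‖f (x, k) - f (x₀, k)‖₊ : NNReal) : ℝ)
    have hnD_cont : ∀ D, Continuous (nD D) := by
      intro D
      refine NNReal.continuous_coe.comp ?_
      exact Continuous.finset_sup_apply fun k _ => ((hf2 k).sub continuous_const).nnnorm
    have hnD_ge : ∀ (D : Finset K) x k, k ∈ D → |f (x, k) - f (x₀, k)| ≤ nD D x := by
      intro D x k hk
      have := Finset.le_sup (f := fun k => ‖f (x, k) - f (x₀, k)‖₊) hk
      have h2 : ((‖f (x, k) - f (x₀, k)‖₊ : NNReal) : ℝ) ≤ nD D x := NNReal.coe_le_coe.2 this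
      simpa using h2
    have hnD_le : ∀ (D : Finset K) x {M : ℝ}, 0 ≤ M → (∀ k ∈ D, |f (x, k) - f (x₀, k)| ≤ M) →
        nD D x ≤ M := by
      intro D x M hM h
      have : (D.sup fun k => ‖f (x, k) - f (x₀, k)‖₊) ≤ M.toNNReal := by
        refine Finset.sup_le fun k hk => ?_
        refine NNReal.coe_le_coe.1 ?_
        rw [Real.coe_toNNReal _ hM]
        simpa using h k hk
      have h2 := NNReal.coe_le_coe.2 this
      rwa [Real.coe_toNNReal _ hM] at h2
    have hnD_nonneg : ∀ D x, 0 ≤ nD D x := fun D x => NNReal.coe_nonneg _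
    have hnD_sub : ∀ (D : Finset K) x y {δ : ℝ}, 0 ≤ δ → (∀ k ∈ D, |f (x, k) - f (y, k)| ≤ δ) →
        nD D x ≤ nD D y + δ := by
      intro D x y δ hδ h
      refine hnD_le D x (add_nonneg (hnD_nonneg _ _) hδ) fun k hk => ?_
      have h1 : |f (x, k) - f (x₀, k)| ≤ |f (x, k) - f (y, k)| + |f (y, k) - f (x₀, k)| :=
        abs_sub_le _ _ _
      have h2 := hnD_ge D y k hk
      have h3 := h k hk
      linarith
    -- pointwise bounds
    have hbd : ∀ x, ∃ M, 0 ≤ M ∧ ∀ k, |f (x, k) - f (x₀, k)| ≤ M := fun x =>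
      exists_bound ((hf1 x).sub (hf1 x₀))
    choose M hM0 hM using hbd
    have hRCC : RCC (range nD) := by
      refine ⟨?_, ?_⟩
      · rintro _ ⟨D, rfl⟩
        exact hnD_cont D
      · intro s hs
        choose D hD using hs
        -- ultrafilter limit
        have hlim : ∀ x, ∃ c, Tendsto (fun n => nD (D n) x) (hyperfilter ℕ) (𝓝 c) := by
          intro x
          have hc : IsCompact (Icc (0 : ℝ) (M x)) := isCompact_Icc
          obtain ⟨c, _, hc2⟩ := hc.ultrafilter_le_nhds
            ((hyperfilter ℕ).map (fun n => nD (D n) x)) (by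
              rw [le_principal_iff]
              refine Filter.mem_map.2 (Filter.Eventually.of_forall fun n => ?_)
              exact ⟨hnD_nonneg _ _, hnD_le _ _ (hM0 x) (fun k _ => hM x k)⟩)
          exact ⟨c, hc2⟩
        choose a ha using hlim
        refine ⟨a, ?_, ?_⟩
        · -- continuity of `a`
          rw [continuous_iff_continuousAt]
          intro x₁
          rw [Metric.continuousAt_iff']
          intro δ hδ
          -- enumerate the union of the `D n`
          have hcount : (⋃ n, (D n : Set K)).Countable := countable_iUnion fun n =>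
            (D n).countable_toSet
          have hev : ∀ᶠ x in 𝓝 x₁, ∀ n, ∀ k ∈ D n, |f (x, k) - f (x₁, k)| < δ / 2 := by
            rcases (⋃ n, (D n : Set K)).eq_empty_or_nonempty with he | hne
            · refine Filter.Eventually.of_forall fun x n k hk => ?_
              exfalso
              have : k ∈ ⋃ n, (D n : Set K) := mem_iUnion.2 ⟨n, hk⟩
              rw [he] at this
              exact this
            · obtain ⟨t, ht⟩ := hcount.exists_eq_range hne
              filter_upwards [eventually_seq hX hA hf hf1 hf2 t x₁ (show 0 < δ / 2 by positivity)]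
                with x hx n k hk
              have : k ∈ range t := by
                rw [← ht]
                exact mem_iUnion.2 ⟨n, hk⟩
              obtain ⟨i, rfl⟩ := this
              exact hx i
          filter_upwards [hev] with x hx
          rw [Real.dist_eq]
          have h1 : a x ≤ a x₁ + δ / 2 := by
            refine le_of_tendsto_of_tendsto (ha x) ((ha x₁).add_const (δ / 2))
              (Filter.Eventually.of_forall fun n => ?_)
            exact hnD_sub _ _ _ (by positivity) fun k hk => (hx n k hk).le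
          have h2 : a x₁ ≤ a x + δ / 2 := by
            refine le_of_tendsto_of_tendsto (ha x₁) ((ha x).add_const (δ / 2))
              (Filter.Eventually.of_forall fun n => ?_)
            refine hnD_sub _ _ _ (by positivity) fun k hk => ?_
            rw [abs_sub_comm]
            exact (hx n k hk).le
          rw [abs_lt]
          constructor <;> linarith
        · -- cluster point
          have ht : Tendsto s (hyperfilter ℕ) (𝓝 a) := by
            rw [tendsto_pi_nhds]
            intro x
            have := ha x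
            simp only [hD] at this
            exact this
          have hle : (hyperfilter ℕ : Filter ℕ) ≤ atTop := by
            have := hyperfilter_le_cofinite (α := ℕ)
            rwa [Nat.cofinite_eq_atTop] at this
          exact (ht.mapClusterPt).mono hle
    -- the full supremum
    let nK : X → ℝ := fun x => ⨆ D : Finset K, nD D x
    have hbdd : ∀ x, BddAbove (range fun D => nD D x) := fun x =>
      ⟨M x, by rintro _ ⟨D, rfl⟩; exact hnD_le _ _ (hM0 x) (fun k _ => hM x k)⟩
    have hmem : nK ∈ closure (range nD) := by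
      have htend : Tendsto nD atTop (𝓝 nK) := by
        rw [tendsto_pi_nhds]
        intro x
        refine tendsto_atTop_ciSup ?_ (hbdd x)
        intro D D' hDD'
        exact NNReal.coe_le_coe.2 (Finset.sup_mono hDD')
      exact mem_closure_of_tendsto htend (Filter.Eventually.of_forall fun D => ⟨D, rfl⟩)
    have hcK : Continuous nK := hX _ hRCC _ hmem
    have h0 : nK x₀ = 0 := by
      have : ∀ D, nD D x₀ = 0 := fun D =>
        le_antisymm (hnD_le D x₀ le_rfl (by intro k _; simp)) (hnD_nonneg _ _)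
      simp [nK, this]
    have hge : ∀ x k, |f (x, k) - f (x₀, k)| ≤ nK x := fun x k =>
      (hnD_ge {k} x k (by simp)).trans (le_ciSup (hbdd x) {k})
    have hev : ∀ᶠ x in 𝓝 x₀, nK x < ε := by
      have := hcK.continuousAt (x := x₀)
      exact this.eventually (gt_mem_nhds (by rw [h0]; exact hε))
    filter_upwards [hev] with x hx k
    exact (hge x k).trans_lt hx
  -- joint continuity
  rw [continuous_iff_continuousAt]
  rintro ⟨x₀, k₀⟩
  rw [Metric.continuousAt_iff']
  intro ε hε
  have h1 := key x₀ (show 0 < ε / 2 by positivity)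
  have h2 : ∀ᶠ k in 𝓝 k₀, |f (x₀, k) - f (x₀, k₀)| < ε / 2 := by
    have := (hf1 x₀).continuousAt (x := k₀)
    rw [Metric.continuousAt_iff'] at this
    simpa [Real.dist_eq] using this (ε / 2) (by positivity)
  rw [nhds_prod_eq]
  filter_upwards [h1.prod_mk h2] with p hp
  rw [Real.dist_eq]
  have h3 : |f p - f (x₀, k₀)| ≤ |f p - f (x₀, p.2)| + |f (x₀, p.2) - f (x₀, k₀)| :=
    abs_sub_le _ _ _
  have h4 := hp.1 p.2
  have h5 := hp.2
  have h6 : f (p.1, p.2) = f p := rfl
  rw [h6] at h4
  linarith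

end Product

/-- If `X` is a weakly Grothendieck (Tychonoff) space and `K` is a compact Hausdorff space, then
`X × K` is weakly Grothendieck. -/
theorem result (X : Type u) [TopologicalSpace X] [T35Space X] (hX : WeaklyGrothendieckSpace X)
    (K : Type v) [TopologicalSpace K] [T2Space K] [CompactSpace K] :
    WeaklyGrothendieckSpace (X × K) :=
  weaklyGrothendieckSpace_of_wg fun _ hA _ hf =>
    continuous_of_mem_closure (wg_of_weaklyGrothendieckSpace hX) hA hf

end Pool.Agent.Results.MP_8a2df8_gt.WeaklyProductCompact
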